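import Pool.Agent.Work.MP_92a29d_co.Defs

/-!
Basic theory: odd closed walks, coverings by graphs of large odd girth, doubling, bipartite
reduction.
-/

namespace Pool.Agent.Work.MP_92a29d_co

open SimpleGraph

section walks

variable {V : Type*} {G : SimpleGraph V}

/-- An odd closed walk contains an odd cycle that is not longer. -/
theorem exists_odd_cycle : ∀ (n : ℕ) (v : V) (p : G.Walk v v), p.length = n → Odd n →
    ∃ u, ∃ q : G.Walk u u, q.IsCycle ∧ Odd q.length ∧ q.length ≤ n := by
  intro n
  induction n using Nat.strong_induction_on with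
  | _ n ih =>
    intro v p hp hn
    cases p with
    | nil => simp at hp; subst hp; exact absurd hn (by decide)
    | cons h q =>
      rename_i w
      rw [Walk.length_cons] at hp
      by_cases hq : q.IsPath
      · refine ⟨v, Walk.cons h q, ?_, ?_, ?_⟩
        · rw [Walk.isCycle_iff_isPath_tail_and_le_length]
          refine ⟨by simpa using hq, ?_⟩
          rw [Walk.length_cons]
          have h1 : q.length ≠ 0 := by
            intro h0
            have := Walk.eq_of_length_eq_zero h0
            subst this
            exact h.ne rfl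
          rcases hn with ⟨k, hk⟩
          omega
        · rw [Walk.length_cons, hp]; exact hn
        · rw [Walk.length_cons, hp]
      · -- there is a closed subwalk
        rw [Walk.isPath_iff_isSubwalk_imp_nil] at hq
        push Not at hq
        obtain ⟨x, y, hsub, hnil⟩ := hq
        obtain ⟨a, b, hab⟩ := hsub
        have hlen : q.length = a.length + y.length + b.length := by
          rw [hab]; simp [Walk.length_append]
        have hy : y.length ≠ 0 := by
          intro h0
          apply hnil
          exact Walk.length_eq_zero_iff.1 h0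
        rcases Nat.even_or_odd y.length with hev | hod
        · obtain ⟨u, c, hc1, hc2, hc3⟩ := ih (a.length + b.length + 1) (by omega) v
            (Walk.cons h (a.append b)) (by simp [Walk.length_append]) (by
              rcases hn with ⟨k, hk⟩
              rcases hev with ⟨l, hl⟩
              exact ⟨k - l, by omega⟩)
          exact ⟨u, c, hc1, hc2, by omega⟩
        · obtain ⟨u, c, hc1, hc2, hc3⟩ := ih y.length (by omega) x y rfl hod
          exact ⟨u, c, hc1, hc2, by omega⟩

/-- The length of a cycle is at most the number of vertices. -/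
theorem cycle_length_le [Fintype V] {v : V} {p : G.Walk v v} (hp : p.IsCycle) :
    p.length ≤ Fintype.card V := by
  have h := hp.support_nodup.length_le_card
  simpa using h

end walks

/-- `V` can be covered by graphs `G i` whose odd closed walks are longer than `2 * m i + 1`. -/
def Avoid (V : Type*) {t : ℕ} (m : Fin t → ℕ) : Prop :=
  ∃ G : Fin t → SimpleGraph V, (∀ u v, u ≠ v → ∃ i, (G i).Adj u v) ∧
    ∀ i v (p : (G i).Walk v v), Odd p.length → 2 * m i + 1 < p.length

theorem Avoid.mono {V : Type*} {t : ℕ} {m m' : Fin t → ℕ} (h : Avoid V m') (hm : ∀ i, m i ≤ m' i) :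
    Avoid V m := by
  obtain ⟨G, h1, h2⟩ := h
  refine ⟨G, h1, fun i v p hp => ?_⟩
  have := h2 i v p hp
  have := hm i
  omega

theorem Avoid.of_injective {V W : Type*} {t : ℕ} {m : Fin t → ℕ} (h : Avoid W m) (f : V → W)
    (hf : Function.Injective f) : Avoid V m := by
  obtain ⟨G, h1, h2⟩ := h
  refine ⟨fun i => (G i).comap f, fun u v huv => ?_, fun i v p hp => ?_⟩
  · obtain ⟨i, hi⟩ := h1 (f u) (f v) (fun h => huv (hf h))
    exact ⟨i, hi⟩
  · have := h2 i _ (p.map (SimpleGraph.Hom.comap f (G i))) (by rw [Walk.length_map]; exact hp)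
    rwa [Walk.length_map] at this

theorem Avoid.fin_le {t : ℕ} {m : Fin t → ℕ} {a b : ℕ} (h : Avoid (Fin b) m) (hab : a ≤ b) :
    Avoid (Fin a) m :=
  h.of_injective (Fin.castLE hab) (Fin.castLE_injective hab)

theorem avoid_iff {r t : ℕ} (m : Fin (t + 1) → ℕ) : Avoid (Fin r) m ↔ ¬ RamseyProperty m r := by
  classical
  constructor
  · rintro ⟨G, h1, h2⟩ hR
    let c : Sym2 (Fin r) → Fin (t + 1) := fun e =>
      if h : ∃ i, e ∈ (G i).edgeSet then h.choose else 0
    obtain ⟨i, v, p, hc, ho, hl⟩ := hR c
    have hle : colourClass c i ≤ G i := by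
      intro u w huw
      obtain ⟨hne, hcol⟩ := huw
      have hex : ∃ i, s(u, w) ∈ (G i).edgeSet := by
        obtain ⟨j, hj⟩ := h1 u w hne
        exact ⟨j, hj⟩
      have hval : c s(u, w) = hex.choose := dif_pos hex
      have hs := hex.choose_spec
      rw [← hval, hcol] at hs
      exact hs
    have := h2 i v (p.mapLe hle) (by simpa using ho)
    simp at this
    omega
  · intro hR
    unfold RamseyProperty at hR
    push Not at hR
    obtain ⟨c, hc⟩ := hR
    refine ⟨fun i => colourClass c i, fun u v huv => ⟨c s(u, v), huv, rfl⟩, fun i v p hp => ?_⟩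
    by_contra hlt
    obtain ⟨u, q, hq1, hq2, hq3⟩ := exists_odd_cycle p.length v p rfl hp
    have := hc i u q hq1 hq2
    omega

theorem ramseyProperty_mono {t : ℕ} {m : Fin (t + 1) → ℕ} {a b : ℕ} (h : RamseyProperty m a)
    (hab : a ≤ b) : RamseyProperty m b := by
  by_contra hb
  rw [← avoid_iff] at hb
  exact (avoid_iff m).1 (hb.fin_le hab) h

theorem oddCycleRamsey_eq_iff {t : ℕ} (m : Fin (t + 1) → ℕ) (N : ℕ) :
    oddCycleRamsey m = N + 1 ↔ Avoid (Fin N) m ∧ ¬ Avoid (Fin (N + 1)) m := by
  rw [avoid_iff, avoid_iff, not_not]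
  unfold oddCycleRamsey
  constructor
  · intro h
    constructor
    · intro hN
      have : N ∈ {r | RamseyProperty m r} := hN
      have := Nat.sInf_le this
      omega
    · have hne : {r | RamseyProperty m r}.Nonempty := by
        by_contra hcon
        rw [Set.not_nonempty_iff_eq_empty] at hcon
        rw [hcon] at h
        simp at h
      have := Nat.sInf_mem hne
      rw [h] at this
      exact this
  · rintro ⟨h1, h2⟩
    apply le_antisymm
    · exact Nat.sInf_le h2
    · by_contra hlt
      push Not at hlt
      have hne : {r | RamseyProperty m r}.Nonempty := ⟨_, h2⟩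
      have hmem := Nat.sInf_mem hne
      exact h1 (ramseyProperty_mono hmem (by omega))

section double

variable {V : Type*} {t : ℕ}

theorem Avoid.double {m : Fin (t + 1) → ℕ} (i : Fin (t + 1)) (h : Avoid V (i.removeNth m)) :
    Avoid (Bool × V) m := by
  classical
  obtain ⟨G, h1, h2⟩ := h
  let H0 : SimpleGraph (Bool × V) :=
    { Adj := fun a b => a.1 ≠ b.1
      symm := ⟨fun _ _ h => h.symm⟩
      loopless := ⟨fun _ h => h rfl⟩ }
  refine ⟨i.insertNth H0 (fun j => (G j).comap Prod.snd), ?_, ?_⟩
  · rintro ⟨a, u⟩ ⟨b, v⟩ hne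
    by_cases hab : a = b
    · subst hab
      have huv : u ≠ v := fun h => hne (by rw [h])
      obtain ⟨j, hj⟩ := h1 u v huv
      refine ⟨i.succAbove j, ?_⟩
      rw [Fin.insertNth_apply_succAbove]
      exact hj
    · refine ⟨i, ?_⟩
      rw [Fin.insertNth_apply_same]
      exact hab
  · intro j
    rcases Fin.eq_self_or_eq_succAbove i j with rfl | ⟨k, rfl⟩
    · rw [Fin.insertNth_apply_same]
      intro v p hp
      exfalso
      have hcol : H0.Colorable 2 := by
        refine ⟨SimpleGraph.Coloring.mk (fun a => if a.1 then 0 else 1) ?_⟩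
        rintro ⟨a, u⟩ ⟨b, v⟩ hab
        change a ≠ b at hab
        cases a <;> cases b <;> simp_all
      rw [two_colorable_iff_forall_loop_even] at hcol
      exact (Nat.not_even_iff_odd.2 hp) (hcol v p)
    · rw [Fin.insertNth_apply_succAbove]
      intro v p hp
      have := h2 k _ (p.map (SimpleGraph.Hom.comap Prod.snd (G k)))
        (by rw [Walk.length_map]; exact hp)
      rw [Walk.length_map] at this
      exact this

theorem Avoid.double_fin {m : Fin (t + 1) → ℕ} (i : Fin (t + 1)) {a : ℕ}
    (h : Avoid (Fin a) (i.removeNth m)) : Avoid (Fin (2 * a)) m := by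
  have h' := h.double i
  have e : Fin (2 * a) ≃ Bool × Fin a :=
    Fintype.equivOfCardEq (by simp)
  exact h'.of_injective e e.injective

theorem avoid_pow : ∀ (t : ℕ) (m : Fin t → ℕ), Avoid (Fin (2 ^ t)) m := by
  intro t
  induction t with
  | zero =>
    intro m
    refine ⟨fun i => i.elim0, fun u v huv => ?_, fun i => i.elim0⟩
    exfalso
    apply huv
    have hu := u.2
    have hv := v.2
    simp at hu hv
    ext
    omega
  | succ t ih =>
    intro m
    have := (ih ((0 : Fin (t + 1)).removeNth m)).double_fin 0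
    rwa [pow_succ, mul_comm]

end double

/-- If a colour has no odd closed walk, then half of the vertices avoid it. -/
theorem Avoid.half_of_even {t : ℕ} {m : Fin (t + 1) → ℕ} {N : ℕ}
    (G : Fin (t + 1) → SimpleGraph (Fin N)) (h1 : ∀ u v, u ≠ v → ∃ i, (G i).Adj u v)
    (h2 : ∀ i v (p : (G i).Walk v v), Odd p.length → 2 * m i + 1 < p.length) (i : Fin (t + 1))
    (hi : ∀ v (p : (G i).Walk v v), Even p.length) {a : ℕ} (ha : 2 * a ≤ N + 1) :
    Avoid (Fin a) (i.removeNth m) := by
  classical
  have hcol : (G i).Colorable 2 := by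
    rw [two_colorable_iff_forall_loop_even]
    exact hi
  obtain ⟨col⟩ := hcol
  -- a colour class with at least half of the vertices
  have hsum : (Finset.univ.filter (fun v : Fin N => col v = 0)).card +
      (Finset.univ.filter (fun v : Fin N => col v = 1)).card = N := by
    have : (Finset.univ.filter (fun v : Fin N => col v = 1)) =
        (Finset.univ.filter (fun v : Fin N => ¬ col v = 0)) := by
      ext v
      simp only [Finset.mem_filter, Finset.mem_univ, true_and]
      have : ∀ x : Fin 2, x = 1 ↔ ¬ x = 0 := by decide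
      exact this _
    rw [this, Finset.card_filter_add_card_filter_not]
    simp
  have hex : ∃ x : Fin 2, a ≤ (Finset.univ.filter (fun v : Fin N => col v = x)).card := by
    by_contra hcon
    push Not at hcon
    have := hcon 0
    have := hcon 1
    omega
  obtain ⟨x, hx⟩ := hex
  have hS : Avoid {v : Fin N // col v = x} (i.removeNth m) := by
    refine ⟨fun j => (G (i.succAbove j)).comap Subtype.val, ?_, ?_⟩
    · rintro ⟨u, hu⟩ ⟨v, hv⟩ huv
      obtain ⟨j, hj⟩ := h1 u v (fun h => huv (Subtype.ext h))
      rcases Fin.eq_self_or_eq_succAbove i j with rfl | ⟨k, rfl⟩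
      · exact absurd (hu.trans hv.symm) (col.valid hj)
      · exact ⟨k, hj⟩
    · intro j v p hp
      have := h2 (i.succAbove j) _ (p.map (SimpleGraph.Hom.comap Subtype.val _))
        (by rw [Walk.length_map]; exact hp)
      rw [Walk.length_map] at this
      exact this
  have hc : a ≤ Fintype.card {v : Fin N // col v = x} := by
    rw [Fintype.card_subtype]; exact hx
  obtain ⟨f⟩ : Nonempty (Fin a ↪ {v : Fin N // col v = x}) :=
    Function.Embedding.nonempty_of_card_le (by simpa using hc)
  exact hS.of_injective f f.injective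

/-- If a colour cannot have an odd cycle, then half of the vertices avoid it. -/
theorem Avoid.half {t : ℕ} {m : Fin (t + 1) → ℕ} {N : ℕ} (h : Avoid (Fin N) m) (i : Fin (t + 1))
    (hi : N ≤ 2 * m i + 2) {a : ℕ} (ha : 2 * a ≤ N + 1) : Avoid (Fin a) (i.removeNth m) := by
  obtain ⟨G, h1, h2⟩ := h
  refine Avoid.half_of_even G h1 h2 i ?_ ha
  intro u w
  rw [← Nat.not_odd_iff_even]
  intro ho
  obtain ⟨v, q, hq1, hq2, hq3⟩ := exists_odd_cycle w.length u w rfl ho
  have h3 := cycle_length_le hq1
  rw [Fintype.card_fin] at h3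
  have h4 := h2 i v q hq2
  rcases hq2 with ⟨k, hk⟩
  omega

/-- Reduction of the problem when one parameter is at least `2 ^ t`. -/
theorem reduction {t : ℕ} (m : Fin (t + 2) → ℕ) (i : Fin (t + 2)) (hi : 2 ^ (t + 1) ≤ m i) :
    oddCycleRamsey m = 2 ^ (t + 2) + 1 ↔ oddCycleRamsey (i.removeNth m) = 2 ^ (t + 1) + 1 := by
  rw [oddCycleRamsey_eq_iff, oddCycleRamsey_eq_iff]
  constructor
  · rintro ⟨_, h⟩
    refine ⟨avoid_pow _ _, fun h' => h ?_⟩
    exact (h'.double_fin i).fin_le (by rw [pow_succ 2 (t + 1)]; omega)
  · rintro ⟨_, h⟩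
    refine ⟨avoid_pow _ _, fun h' => h ?_⟩
    exact h'.half i (by rw [pow_succ 2 (t + 1)]; omega) (by rw [pow_succ 2 (t + 1)]; omega)

end Pool.Agent.Work.MP_92a29d_co
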