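import Pool.Agent.Work.MP_92a29d_co.Family

/-!
The counting bound: a nonbipartite graph on `2 M + 1` vertices all of whose odd closed walks are
longer than `2 m + 1` has at most `(M - m) ^ 2 + 2 M` edges.
-/

namespace Pool.Agent.Work.MP_92a29d_co

open SimpleGraph Finset

section cyc

variable {V : Type*} {G : SimpleGraph V}

/-- A shortest odd closed walk, indexed by `ZMod g`. -/
structure ShortOdd (G : SimpleGraph V) (g : ℕ) (c : ZMod g → V) : Prop where
  odd : Odd g
  five : 5 ≤ g
  adj : ∀ i, G.Adj (c i) (c (i + 1))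
  min : ∀ v (p : G.Walk v v), Odd p.length → g ≤ p.length

theorem exists_shortOdd (h : ∃ v, ∃ p : G.Walk v v, Odd p.length) {m : ℕ} (hm : 1 ≤ m)
    (hG : ∀ v (p : G.Walk v v), Odd p.length → 2 * m + 1 < p.length) :
    ∃ g, ∃ c : ZMod g → V, ShortOdd G g c ∧ 2 * m + 3 ≤ g := by
  classical
  have hex : ∃ n, ∃ v, ∃ p : G.Walk v v, Odd p.length ∧ p.length = n := by
    obtain ⟨v, p, hp⟩ := h
    exact ⟨p.length, v, p, hp, rfl⟩
  obtain ⟨v, p, hp, hlen⟩ := Nat.find_spec hex
  have hmin : ∀ w (q : G.Walk w w), Odd q.length → p.length ≤ q.length := by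
    intro w q hq
    rw [hlen]
    exact Nat.find_min' hex ⟨w, q, hq, rfl⟩
  have hlt := hG v p hp
  have h3 : 2 * m + 3 ≤ p.length := by
    obtain ⟨k, hk⟩ := hp
    omega
  refine ⟨p.length, fun i => p.getVert i.val, ⟨hp, by omega, ?_, hmin⟩, h3⟩
  intro i
  have : NeZero p.length := ⟨by omega⟩
  have hi := ZMod.val_lt i
  rcases Nat.lt_or_ge (i.val + 1) p.length with h1 | h1
  · have h2 : (i + 1).val = i.val + 1 := by
      rw [ZMod.val_add_of_lt]
      · rw [ZMod.val_one'' (by omega)]
      · rw [ZMod.val_one'' (by omega)]; exact h1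
    rw [h2]
    exact p.adj_getVert_succ hi
  · have h2 : i.val + 1 = p.length := by omega
    have h4 : (i + 1).val = 0 := by
      have : i + 1 = 0 := by
        have h5 : ((i.val + 1 : ℕ) : ZMod p.length) = 0 := by rw [h2]; exact ZMod.natCast_self _
        rw [Nat.cast_add, ZMod.natCast_zmod_val, Nat.cast_one] at h5
        exact h5
      rw [this, ZMod.val_zero]
    rw [h4, Walk.getVert_zero]
    have h5 := p.adj_getVert_succ hi
    rw [h2, Walk.getVert_length] at h5
    exact h5

variable {g : ℕ} {c : ZMod g → V}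

theorem ShortOdd.walk (h : ShortOdd G g c) (i : ZMod g) :
    ∀ k : ℕ, ∃ p : G.Walk (c i) (c (i + k)), p.length = k := by
  intro k
  induction k with
  | zero => exact ⟨Walk.nil.copy rfl (by simp), by simp⟩
  | succ k ih =>
    obtain ⟨p, hp⟩ := ih
    have h1 := h.adj (i + k)
    refine ⟨(p.concat h1).copy rfl (by push_cast; rw [add_assoc]), ?_⟩
    rw [Walk.length_copy, Walk.length_concat, hp]

theorem ShortOdd.walk' (h : ShortOdd G g c) (i j : ZMod g) :
    ∃ p : G.Walk (c i) (c j), p.length = (j - i).val := by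
  have : NeZero g := ⟨by have := h.five; omega⟩
  obtain ⟨p, hp⟩ := h.walk i (j - i).val
  refine ⟨p.copy rfl ?_, by rw [Walk.length_copy, hp]⟩
  rw [ZMod.natCast_zmod_val]
  congr 1
  ring

theorem val_sub_add {g : ℕ} [NeZero g] {i j : ZMod g} (hij : i ≠ j) :
    (j - i).val + (i - j).val = g ∧ 0 < (j - i).val := by
  have h0 : j - i ≠ 0 := fun h => hij (sub_eq_zero.1 h).symm
  have h1 : (i - j) = -(j - i) := by ring
  have h2 : (j - i).val ≠ 0 := fun h => h0 ((ZMod.val_eq_zero _).1 h)
  have : NeZero (j - i) := ⟨h0⟩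
  rw [h1, ZMod.val_neg_of_ne_zero]
  have := ZMod.val_lt (j - i)
  omega

theorem ShortOdd.injective (h : ShortOdd G g c) : Function.Injective c := by
  have : NeZero g := ⟨by have := h.five; omega⟩
  intro i j hc
  by_contra hij
  obtain ⟨h1, h2⟩ := val_sub_add hij
  obtain ⟨_, h4⟩ := val_sub_add (Ne.symm hij)
  obtain ⟨p, hp⟩ := h.walk' i j
  obtain ⟨q, hq⟩ := h.walk' j i
  obtain ⟨k, hk⟩ := h.odd
  rcases Nat.even_or_odd (j - i).val with he | ho
  · obtain ⟨l, hl⟩ := he
    have := h.min _ (q.copy rfl hc) (by rw [Walk.length_copy, hq]; exact ⟨k - l, by omega⟩)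
    rw [Walk.length_copy, hq] at this
    omega
  · have := h.min _ (p.copy rfl hc.symm) (by rw [Walk.length_copy, hp]; exact ho)
    rw [Walk.length_copy, hp] at this
    omega

theorem ShortOdd.near (h : ShortOdd G g c) {w : V} {i j : ZMod g} (hi : G.Adj w (c i))
    (hj : G.Adj w (c j)) (hij : i ≠ j) : j = i + 2 ∨ j = i - 2 := by
  have : NeZero g := ⟨by have := h.five; omega⟩
  obtain ⟨h1, h2⟩ := val_sub_add hij
  obtain ⟨_, h4⟩ := val_sub_add (Ne.symm hij)
  obtain ⟨p, hp⟩ := h.walk' i j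
  obtain ⟨q, hq⟩ := h.walk' j i
  obtain ⟨k, hk⟩ := h.odd
  rcases Nat.even_or_odd (j - i).val with he | ho
  · left
    obtain ⟨l, hl⟩ := he
    have := h.min _ (Walk.cons hj (q.concat hi.symm)) (by
      rw [Walk.length_cons, Walk.length_concat, hq]; exact ⟨k - l + 1, by omega⟩)
    rw [Walk.length_cons, Walk.length_concat, hq] at this
    have hv : (j - i).val = 2 := by omega
    have : j - i = ((2 : ℕ) : ZMod g) := by rw [← hv, ZMod.natCast_zmod_val]
    rw [Nat.cast_two] at this
    rw [← this]; ring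
  · right
    obtain ⟨l, hl⟩ := ho
    have := h.min _ (Walk.cons hi (p.concat hj.symm)) (by
      rw [Walk.length_cons, Walk.length_concat, hp]; exact ⟨l + 1, by omega⟩)
    rw [Walk.length_cons, Walk.length_concat, hp] at this
    have hv : (i - j).val = 2 := by omega
    have : i - j = ((2 : ℕ) : ZMod g) := by rw [← hv, ZMod.natCast_zmod_val]
    rw [Nat.cast_two] at this
    rw [← this]; ring

theorem two_ne_zero_zmod (hg : 5 ≤ g) : (2 : ZMod g) ≠ 0 := by
  intro h
  have : ((2 : ℕ) : ZMod g) = 0 := by exact_mod_cast h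
  rw [ZMod.natCast_eq_zero_iff] at this
  have := Nat.le_of_dvd (by norm_num) this
  omega

theorem six_ne_zero_zmod (hg : 5 ≤ g) (ho : Odd g) : (6 : ZMod g) ≠ 0 := by
  intro h
  have : ((6 : ℕ) : ZMod g) = 0 := by exact_mod_cast h
  rw [ZMod.natCast_eq_zero_iff] at this
  have h1 := Nat.le_of_dvd (by norm_num) this
  obtain ⟨k, hk⟩ := ho
  have : g = 5 := by omega
  subst this
  omega

/-- A vertex has at most two neighbours on a shortest odd cycle. -/
theorem ShortOdd.card_le (h : ShortOdd G g c) [NeZero g] (w : V) [DecidablePred fun i => G.Adj w (c i)] :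
    (univ.filter (fun i : ZMod g => G.Adj w (c i))).card ≤ 2 := by
  by_contra hcon
  push Not at hcon
  obtain ⟨i, hi, j, hj, k, hk, hij, hik, hjk⟩ := Finset.two_lt_card.1 hcon
  simp only [mem_filter, mem_univ, true_and] at hi hj hk
  have h2 := two_ne_zero_zmod h.five
  have h6 := six_ne_zero_zmod h.five h.odd
  rcases h.near hi hj hij with e1 | e1 <;> rcases h.near hi hk hik with e2 | e2 <;>
    rcases h.near hj hk hjk with e3 | e3
  · exact hjk (e1.trans e2.symm)
  · exact hjk (e1.trans e2.symm)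
  · apply h6; rw [e1, e2] at e3; linear_combination -e3
  · apply h2; rw [e1, e2] at e3; linear_combination -e3
  · apply h2; rw [e1, e2] at e3; linear_combination e3
  · apply h6; rw [e1, e2] at e3; linear_combination e3
  · exact hjk (e1.trans e2.symm)
  · exact hjk (e1.trans e2.symm)

end cyc

section count

variable {V : Type*} {G : SimpleGraph V}

open Classical in
/-- adjacency indicator -/
noncomputable def ind (G : SimpleGraph V) (v w : V) : ℕ := if G.Adj v w then 1 else 0

theorem ind_comm (v w : V) : ind G v w = ind G w v := by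
  unfold ind
  by_cases h : G.Adj v w
  · rw [if_pos h, if_pos h.symm]
  · rw [if_neg h, if_neg (fun h' => h h'.symm)]

theorem ind_le (v w : V) : ind G v w ≤ 1 := by
  unfold ind
  split_ifs <;> simp

/-- Mantel's theorem. -/
theorem mantel (hG : ∀ u v w, G.Adj u v → G.Adj v w → ¬ G.Adj u w) (S : Finset V) :
    2 * ∑ v ∈ S, ∑ w ∈ S, ind G v w ≤ S.card ^ 2 := by
  classical
  rcases S.eq_empty_or_nonempty with rfl | hne
  · simp
  obtain ⟨x, hx, hmax⟩ := S.exists_max_image (fun v => ∑ w ∈ S, ind G v w) hne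
  let A := S.filter (fun v => G.Adj x v)
  let B := S.filter (fun v => ¬ G.Adj x v)
  have hA : A.card = ∑ w ∈ S, ind G x w := by
    unfold ind
    rw [Finset.card_filter]
  have hsplit : ∀ f : V → ℕ, ∑ v ∈ S, f v = ∑ v ∈ A, f v + ∑ v ∈ B, f v := fun f =>
    (Finset.sum_filter_add_sum_filter_not S (fun v => G.Adj x v) f).symm
  have hAB : A.card + B.card = S.card := Finset.card_filter_add_card_filter_not _
  have hAA : ∀ v ∈ A, ∑ w ∈ A, ind G v w = 0 := by
    intro v hv
    apply Finset.sum_eq_zero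
    intro w hw
    unfold ind
    rw [if_neg]
    intro hvw
    exact hG _ _ _ (mem_filter.1 hv).2 hvw (mem_filter.1 hw).2
  have h1 : ∑ v ∈ A, ∑ w ∈ S, ind G v w ≤ ∑ v ∈ B, ∑ w ∈ S, ind G v w := by
    calc ∑ v ∈ A, ∑ w ∈ S, ind G v w = ∑ v ∈ A, ∑ w ∈ B, ind G v w := by
          apply Finset.sum_congr rfl
          intro v hv
          rw [hsplit, hAA v hv, zero_add]
      _ = ∑ w ∈ B, ∑ v ∈ A, ind G v w := Finset.sum_comm
      _ = ∑ w ∈ B, ∑ v ∈ A, ind G w v := by simp only [ind_comm]
      _ ≤ ∑ v ∈ B, ∑ w ∈ S, ind G v w := by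
          apply Finset.sum_le_sum
          intro v _
          rw [hsplit (fun w => ind G v w)]
          exact Nat.le_add_right _ _
  have h2 : ∑ v ∈ B, ∑ w ∈ S, ind G v w ≤ B.card * A.card := by
    calc ∑ v ∈ B, ∑ w ∈ S, ind G v w ≤ ∑ _v ∈ B, A.card := by
          apply Finset.sum_le_sum
          intro v hv
          rw [hA]
          exact hmax v (mem_filter.1 hv).1
      _ = B.card * A.card := by rw [Finset.sum_const, smul_eq_mul]
  have h3 : ∑ v ∈ S, ∑ w ∈ S, ind G v w ≤ 2 * (B.card * A.card) := by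
    rw [hsplit]
    omega
  have h4 : 4 * (B.card * A.card) ≤ (A.card + B.card) ^ 2 := by
    nlinarith [sq_nonneg ((A.card : ℤ) - B.card), Nat.le_total A.card B.card]
  rw [← hAB]
  omega

variable [Fintype V]

theorem ShortOdd.sum_cycle_le {g : ℕ} {c : ZMod g → V} (h : ShortOdd G g c) [NeZero g] (w : V)
    [DecidableEq V] : ∑ v ∈ univ.image c, ind G w v ≤ 2 := by
  classical
  rw [Finset.sum_image (fun i _ j _ hij => h.injective hij)]
  unfold ind
  rw [← Finset.card_filter]
  exact h.card_le w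

theorem ShortOdd.sum_le {g : ℕ} {c : ZMod g → V} (h : ShortOdd G g c) [NeZero g]
    [DecidableEq V] :
    2 * ∑ v, ∑ w, ind G v w ≤
      4 * Fintype.card V + 4 * (Fintype.card V - g) + (Fintype.card V - g) ^ 2 := by
  have hC : (univ.image c).card = g := by
    rw [Finset.card_image_of_injective _ h.injective, Finset.card_univ, ZMod.card]
  have hC' : ((univ.image c)ᶜ).card = Fintype.card V - g := by
    rw [Finset.card_compl, hC]
  have hsplit : ∀ f : V → ℕ, ∑ v, f v = ∑ v ∈ univ.image c, f v + ∑ v ∈ (univ.image c)ᶜ, f v :=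
    fun f => (Finset.sum_add_sum_compl _ _).symm
  have h1 : ∑ v ∈ univ.image c, ∑ w, ind G v w ≤ 2 * Fintype.card V := by
    rw [Finset.sum_comm]
    calc ∑ w, ∑ v ∈ univ.image c, ind G v w ≤ ∑ _w : V, 2 := by
          apply Finset.sum_le_sum
          intro w _
          calc ∑ v ∈ univ.image c, ind G v w = ∑ v ∈ univ.image c, ind G w v :=
                Finset.sum_congr rfl (fun v _ => ind_comm v w)
            _ ≤ 2 := h.sum_cycle_le w
      _ = 2 * Fintype.card V := by rw [Finset.sum_const, Finset.card_univ, smul_eq_mul, mul_comm]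
  have h2 : ∑ v ∈ (univ.image c)ᶜ, ∑ w ∈ univ.image c, ind G v w ≤
      2 * (Fintype.card V - g) := by
    calc ∑ v ∈ (univ.image c)ᶜ, ∑ w ∈ univ.image c, ind G v w ≤ ∑ _v ∈ (univ.image c)ᶜ, 2 :=
          Finset.sum_le_sum (fun v _ => h.sum_cycle_le v)
      _ = 2 * (Fintype.card V - g) := by rw [Finset.sum_const, hC', smul_eq_mul, mul_comm]
  have h3 : 2 * ∑ v ∈ (univ.image c)ᶜ, ∑ w ∈ (univ.image c)ᶜ, ind G v w ≤
      (Fintype.card V - g) ^ 2 := by
    rw [← hC']
    apply mantel
    intro u v w huv hvw huw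
    have := h.min u (Walk.cons huv (Walk.cons hvw (Walk.cons huw.symm Walk.nil)))
      (by simp only [Walk.length_cons, Walk.length_nil]; decide)
    simp only [Walk.length_cons, Walk.length_nil] at this
    have := h.five
    omega
  have h4 : ∑ v ∈ (univ.image c)ᶜ, ∑ w, ind G v w =
      ∑ v ∈ (univ.image c)ᶜ, ∑ w ∈ univ.image c, ind G v w +
      ∑ v ∈ (univ.image c)ᶜ, ∑ w ∈ (univ.image c)ᶜ, ind G v w := by
    rw [← Finset.sum_add_distrib]
    exact Finset.sum_congr rfl (fun v _ => hsplit _)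
  rw [hsplit, h4]
  omega

theorem ShortOdd.le_card {g : ℕ} {c : ZMod g → V} (h : ShortOdd G g c) [NeZero g] :
    g ≤ Fintype.card V := by
  have := Fintype.card_le_of_injective c h.injective
  rwa [ZMod.card] at this

/-- The counting bound. -/
theorem count_bound {M m : ℕ} (hV : Fintype.card V = 2 * M + 1)
    (hnb : ∃ v, ∃ p : G.Walk v v, Odd p.length) (hm : 1 ≤ m)
    (hG : ∀ v (p : G.Walk v v), Odd p.length → 2 * m + 1 < p.length) :
    m < M ∧ ∑ v, ∑ w, ind G v w ≤ 2 * ((M - m) ^ 2 + 2 * M) := by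
  classical
  obtain ⟨g, c, h, hg⟩ := exists_shortOdd hnb hm hG
  have : NeZero g := ⟨by omega⟩
  have h1 := h.sum_le
  have h2 := h.le_card
  rw [hV] at h1 h2
  obtain ⟨k, hk⟩ := h.odd
  obtain ⟨j, rfl⟩ : ∃ j, k = j + 1 := ⟨k - 1, by omega⟩
  have hj : m ≤ j := by omega
  have hjM : j < M := by omega
  refine ⟨by omega, ?_⟩
  obtain ⟨a, ha⟩ : ∃ a, M = j + 1 + a := ⟨M - (j + 1), by omega⟩
  have h3 : 2 * M + 1 - g = 2 * a := by omega
  rw [h3] at h1
  have h4 : (a + 1) ^ 2 ≤ (M - m) ^ 2 := Nat.pow_le_pow_left (by omega) 2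
  nlinarith

/-- The counting criterion. -/
theorem not_avoid_of_count {t : ℕ} (m : Fin (t + 1) → ℕ) (hm : ∀ i, 1 ≤ m i) (M : ℕ)
    (hsub : ∀ i : Fin (t + 1), ¬ Avoid (Fin (M + 1)) (i.removeNth m))
    (hsum : ∑ i, ((M - m i) ^ 2 + 2 * M) < M * (2 * M + 1)) : ¬ Avoid (Fin (2 * M + 1)) m := by
  classical
  intro hA
  obtain ⟨G, h1, h2⟩ := hA
  have hnb : ∀ i, ∃ v, ∃ p : (G i).Walk v v, Odd p.length := by
    intro i
    by_contra hcon
    push Not at hcon
    exact hsub i (Avoid.half_of_even G h1 h2 i (fun v p => Nat.not_odd_iff_even.1 (hcon v p))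
      (by omega))
  have hb : ∀ i, ∑ v, ∑ w, ind (G i) v w ≤ 2 * ((M - m i) ^ 2 + 2 * M) := fun i =>
    (count_bound (by simp) (hnb i) (hm i) (h2 i)).2
  have hcov : (2 * M + 1) * (2 * M) ≤ ∑ i, ∑ v, ∑ w, ind (G i) v w := by
    rw [Finset.sum_comm]
    calc (2 * M + 1) * (2 * M) = ∑ v : Fin (2 * M + 1), 2 * M := by simp
      _ ≤ ∑ v : Fin (2 * M + 1), ∑ i, ∑ w, ind (G i) v w := by
          apply Finset.sum_le_sum
          intro v _
          rw [Finset.sum_comm]
          calc 2 * M = (univ.erase v).card := by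
                rw [Finset.card_erase_of_mem (mem_univ _)]; simp
            _ = ∑ w ∈ univ.erase v, 1 := by simp
            _ ≤ ∑ w ∈ univ.erase v, ∑ i, ind (G i) v w := by
                apply Finset.sum_le_sum
                intro w hw
                obtain ⟨i, hi⟩ := h1 v w (Finset.ne_of_mem_erase hw).symm
                calc 1 = ind (G i) v w := by unfold ind; rw [if_pos hi]
                  _ ≤ ∑ i, ind (G i) v w :=
                    Finset.single_le_sum (f := fun i => ind (G i) v w)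
                      (fun _ _ => Nat.zero_le _) (mem_univ i)
            _ ≤ ∑ w, ∑ i, ind (G i) v w :=
                Finset.sum_le_sum_of_subset (Finset.erase_subset _ _)
  have : (2 * M + 1) * (2 * M) ≤ ∑ i, 2 * ((M - m i) ^ 2 + 2 * M) :=
    hcov.trans (Finset.sum_le_sum fun i _ => hb i)
  rw [← Finset.mul_sum] at this
  nlinarith

end count

end Pool.Agent.Work.MP_92a29d_co
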