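import Mathlib

/-!
Multicolour Ramsey numbers for short odd cycles: definitions.
-/

namespace Pool.Agent.Work.MP_92a29d_co

/-- The graph of the edges of colour `i`, for a colouring `c` of the edges of the complete graph
on `r` vertices. -/
def colourClass {r t : ℕ} (c : Sym2 (Fin r) → Fin t) (i : Fin t) : SimpleGraph (Fin r) where
  Adj u v := u ≠ v ∧ c s(u, v) = i
  symm := ⟨fun u v h => ⟨h.1.symm, by rw [Sym2.eq_swap]; exact h.2⟩⟩
  loopless := ⟨fun u h => h.1 rfl⟩

/-- Every colouring of the edges of the complete graph on `r` vertices with colours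
`0, …, t - 1` has, for some colour `i`, an odd cycle of colour `i` of length at most
`2 * m i + 1`. -/
def RamseyProperty {t : ℕ} (m : Fin t → ℕ) (r : ℕ) : Prop :=
  ∀ c : Sym2 (Fin r) → Fin t, ∃ i : Fin t, ∃ v : Fin r, ∃ p : (colourClass c i).Walk v v,
    p.IsCycle ∧ Odd p.length ∧ p.length ≤ 2 * m i + 1

/-- The number `r(≤ (C_{2 m_1 + 1}, …, C_{2 m_t + 1}))`. -/
noncomputable def oddCycleRamsey {t : ℕ} (m : Fin t → ℕ) : ℕ :=
  sInf {r : ℕ | RamseyProperty m r}

end Pool.Agent.Work.MP_92a29d_co
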