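import Pool.Agent.Work.MP_92a29d_co.Main

/-!
Explicit four-colourings of the complete graph on 17 vertices, given by adjacency masks.
-/

namespace Pool.Agent.Work.MP_92a29d_co

open SimpleGraph Finset

/-- union of the masks `A i` over the elements `i` of the mask `S` -/
def stepMask : List ℕ → ℕ → ℕ
  | [], _ => 0
  | a :: A, S => Nat.lor (bif Nat.testBit S 0 then a else 0) (stepMask A (S / 2))

theorem stepMask_spec : ∀ (A : List ℕ) (S i j : ℕ), S.testBit i = true →
    (A.getD i 0).testBit j = true → (stepMask A S).testBit j = true := by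
  intro A
  induction A with
  | nil => intro S i j _ h; simp at h
  | cons a A ih =>
    intro S i j hS hA
    rw [stepMask]
    change ((bif Nat.testBit S 0 then a else 0) ||| stepMask A (S / 2)).testBit j = true
    rw [Nat.testBit_or, Bool.or_eq_true]
    cases i with
    | zero => left; rw [hS]; simpa using hA
    | succ i =>
      right
      apply ih (S / 2) i j
      · rw [Nat.testBit_succ] at hS; exact hS
      · simpa using hA

/-- vertices reached by walks of length `k` from the elements of `S` -/
def reach (A : List ℕ) : ℕ → ℕ → ℕ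
  | 0, S => S
  | k + 1, S => reach A k (stepMask A S)

/-- the graph with adjacency masks `A` -/
def maskGraph (A : List ℕ) (n : ℕ) : SimpleGraph (Fin n) where
  Adj u v := u ≠ v ∧ (A.getD u 0).testBit v = true ∧ (A.getD v 0).testBit u = true
  symm := ⟨fun _ _ h => ⟨h.1.symm, h.2.2, h.2.1⟩⟩
  loopless := ⟨fun _ h => h.1 rfl⟩

theorem reach_spec (A : List ℕ) (n : ℕ) : ∀ {u v : Fin n} (p : (maskGraph A n).Walk u v) (S : ℕ),
    S.testBit u = true → (reach A p.length S).testBit v = true := by
  intro u v p
  induction p with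
  | nil => intro S h; exact h
  | @cons a b c h q ih =>
    intro S hS
    rw [Walk.length_cons, reach]
    exact ih _ (stepMask_spec A S a b hS h.2.1)

/-- no closed walk of odd length at most `2 m + 1` -/
def okCol (A : List ℕ) (m : ℕ) : Bool :=
  (List.range 17).all fun u => (List.range (m + 1)).all fun j =>
    !(reach A (2 * j + 1) (2 ^ u)).testBit u

theorem okCol_spec {A : List ℕ} {m : ℕ} (h : okCol A m = true) (v : Fin 17)
    (p : (maskGraph A 17).Walk v v) (hp : Odd p.length) : 2 * m + 1 < p.length := by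
  by_contra hcon
  obtain ⟨j, hj⟩ := hp
  have h1 := List.all_eq_true.1 h v (List.mem_range.2 v.2)
  have h2 := List.all_eq_true.1 h1 j (List.mem_range.2 (by omega))
  have h3 := reach_spec A 17 p (2 ^ (v : ℕ)) (by rw [Nat.testBit_two_pow]; simp)
  rw [hj] at h3
  rw [h3] at h2
  exact absurd h2 (by decide)

/-- every pair is covered -/
def okCover (A : Fin 4 → List ℕ) : Bool :=
  (List.range 17).all fun u => (List.range 17).all fun v => u == v ||
    (List.finRange 4).any fun i => ((A i).getD u 0).testBit v && ((A i).getD v 0).testBit u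

theorem avoid_of_masks (A : Fin 4 → List ℕ) (m : Fin 4 → ℕ) (h1 : okCover A = true)
    (h2 : ∀ i, okCol (A i) (m i) = true) : Avoid (Fin 17) m := by
  refine ⟨fun i => maskGraph (A i) 17, fun u v huv => ?_, fun i v p hp => okCol_spec (h2 i) v p hp⟩
  have h3 := List.all_eq_true.1 h1 u (List.mem_range.2 u.2)
  have h4 := List.all_eq_true.1 h3 v (List.mem_range.2 v.2)
  rw [Bool.or_eq_true, beq_iff_eq] at h4
  rcases h4 with h4 | h4
  · exact absurd (Fin.ext h4) huv
  · rw [List.any_eq_true] at h4
    obtain ⟨i, _, hi⟩ := h4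
    rw [Bool.and_eq_true] at hi
    exact ⟨i, huv, hi.1, hi.2⟩

def col5222 : Fin 4 → List ℕ := ![
  [21504, 43008, 10304, 5248, 21504, 43008, 65540, 65544, 16896, 33024, 25, 38, 25, 38, 273, 546, 192],
  [10342, 5273, 21777, 43554, 10342, 5273, 16657, 33314, 65604, 65672, 8230, 4121, 10278, 5145, 65604, 65672, 49920],
  [33416, 16708, 32906, 16453, 66304, 66304, 6154, 9221, 6194, 9265, 98944, 82240, 82240, 98944, 6154, 9221, 15408],
  [65808, 66080, 66080, 65808, 32905, 16454, 42656, 22864, 42121, 22598, 22848, 42624, 34432, 18752, 42656, 22864, 15]]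

def col3322 : Fin 4 → List ℕ := ![
  [4376, 8740, 17538, 34881, 34881, 17538, 1176, 2148, 98305, 81922, 2148, 1176, 98305, 81922, 8740, 4376, 13056],
  [33282, 16641, 65568, 65552, 24584, 36868, 67584, 66560, 4610, 8449, 36992, 24640, 1312, 2576, 2066, 1057, 204],
  [25764, 39000, 37185, 25218, 66050, 65793, 25094, 37129, 17572, 34904, 65793, 66050, 16518, 32841, 37193, 25222, 3120],
  [67648, 66688, 10776, 5412, 5540, 10840, 37153, 25106, 10328, 5284, 25114, 37157, 10840, 5540, 66688, 67648, 49155]]

def col6331 : Fin 4 → List ℕ := ![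
  [65548, 65548, 19, 19, 44, 80, 160, 320, 640, 1280, 2560, 5120, 10240, 20480, 40960, 81920, 32771],
  [1920, 3584, 14336, 3584, 14336, 61440, 57344, 114689, 98305, 65547, 11, 30, 52, 116, 224, 480, 896],
  [2050, 12305, 1576, 65924, 49218, 65924, 69904, 1576, 17512, 2180, 65924, 8705, 49218, 34818, 69904, 12304, 17512],
  [61552, 49632, 115136, 61536, 67457, 3595, 3599, 14358, 14358, 61552, 61552, 115168, 67465, 67465, 3599, 3599, 14356]]

def col6521 : Fin 4 → List ℕ := ![
  [65548, 65548, 19, 19, 44, 80, 160, 320, 640, 1280, 2560, 5120, 10240, 20480, 40960, 81920, 32771],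
  [32770, 17, 1032, 65540, 6146, 7168, 7168, 57344, 57344, 90112, 100, 112, 112, 896, 896, 385, 520],
  [9792, 9792, 25472, 9792, 25472, 115072, 98315, 6196, 6196, 31, 98315, 115072, 115072, 31, 6196, 7264, 7264],
  [22960, 55712, 104544, 55712, 99393, 8719, 25364, 67083, 66635, 39136, 29072, 8719, 1551, 101472, 66635, 8734, 24980]]

theorem avoid_5222 : Avoid (Fin 17) ![5, 2, 2, 2] :=
  avoid_of_masks col5222 _ (by decide +kernel) (by decide +kernel)

theorem avoid_3322 : Avoid (Fin 17) ![3, 3, 2, 2] :=
  avoid_of_masks col3322 _ (by decide +kernel) (by decide +kernel)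

theorem avoid_6331 : Avoid (Fin 17) ![6, 3, 3, 1] :=
  avoid_of_masks col6331 _ (by decide +kernel) (by decide +kernel)

theorem avoid_6521 : Avoid (Fin 17) ![6, 5, 2, 1] :=
  avoid_of_masks col6521 _ (by decide +kernel) (by decide +kernel)

theorem avoid_7421 : Avoid (Fin 17) ![7, 4, 2, 1] := by
  have h := avoid_lowTuple 3
  have e : lowTuple 3 = ![7, 4, 2, 1] := by
    funext i
    fin_cases i <;> rfl
  rw [e] at h
  exact h

end Pool.Agent.Work.MP_92a29d_co
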