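import Pool.Agent.Work.MP_92a29d_co.Basic

/-!
Existence of the Ramsey number, homomorphisms to odd cycles, and the extremal family
`(2^(t-1) - 1, 2^(t-2), …, 2, 1)`.
-/

namespace Pool.Agent.Work.MP_92a29d_co

open SimpleGraph

theorem exists_not_avoid : ∀ (t : ℕ) (m : Fin t → ℕ), (∀ i, 1 ≤ m i) →
    ∃ N, ¬ Avoid (Fin N) m := by
  classical
  intro t
  induction t with
  | zero =>
    intro m _
    refine ⟨2, ?_⟩
    rintro ⟨G, h1, _⟩
    obtain ⟨i, _⟩ := h1 0 1 (by decide)
    exact i.elim0
  | succ t ih =>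
    intro m hm
    have hex : ∀ i : Fin (t + 1), ∃ N, ¬ Avoid (Fin N) (i.removeNth m) := fun i =>
      ih _ (fun j => hm _)
    choose N hN using hex
    let M := ∑ i, N i
    have hNM : ∀ i, N i ≤ M := fun i => Finset.single_le_sum (fun _ _ => Nat.zero_le _)
      (Finset.mem_univ i)
    refine ⟨(t + 1) * M + 1, ?_⟩
    rintro ⟨G, h1, h2⟩
    let col : Fin ((t + 1) * M + 1) → Fin (t + 1) := fun v =>
      if h : ∃ i, (G i).Adj 0 v then h.choose else 0
    have hcol : ∀ v, v ≠ 0 → (G (col v)).Adj 0 v := by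
      intro v hv
      have hex := h1 0 v (Ne.symm hv)
      have : col v = hex.choose := dif_pos hex
      rw [this]
      exact hex.choose_spec
    have hcard : (t + 1) * M ≤ (Finset.univ.filter
        (fun v : Fin ((t + 1) * M + 1) => v ≠ 0)).card := by
      rw [Finset.filter_ne' Finset.univ (0 : Fin ((t + 1) * M + 1)),
        Finset.card_erase_of_mem (Finset.mem_univ _)]
      simp
    obtain ⟨i, _, hi⟩ := Finset.exists_le_card_fiber_of_mul_le_card_of_maps_to
      (s := Finset.univ.filter (fun v : Fin ((t + 1) * M + 1) => v ≠ 0))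
      (t := (Finset.univ : Finset (Fin (t + 1)))) (f := col) (n := M)
      (fun _ _ => Finset.mem_univ _) ⟨0, Finset.mem_univ _⟩ (by simpa using hcard)
    apply hN i
    have hS : Avoid {v : Fin ((t + 1) * M + 1) // v ≠ 0 ∧ col v = i} (i.removeNth m) := by
      refine ⟨fun j => (G (i.succAbove j)).comap Subtype.val, ?_, ?_⟩
      · rintro ⟨u, hu⟩ ⟨v, hv⟩ huv
        obtain ⟨j, hj⟩ := h1 u v (fun h => huv (Subtype.ext h))
        rcases Fin.eq_self_or_eq_succAbove i j with rfl | ⟨k, rfl⟩
        · exfalso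
          have e1 := hcol u hu.1
          have e2 := hcol v hv.1
          rw [hu.2] at e1
          rw [hv.2] at e2
          have := h2 j 0 (Walk.cons e1 (Walk.cons hj (Walk.cons e2.symm Walk.nil)))
            (by simp only [Walk.length_cons, Walk.length_nil]; decide)
          simp only [Walk.length_cons, Walk.length_nil] at this
          have := hm j
          omega
        · exact ⟨k, hj⟩
      · intro j v p hp
        have := h2 (i.succAbove j) _ (p.map (SimpleGraph.Hom.comap Subtype.val _))
          (by rw [Walk.length_map]; exact hp)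
        rw [Walk.length_map] at this
        exact this
    have hc : N i ≤ Fintype.card {v : Fin ((t + 1) * M + 1) // v ≠ 0 ∧ col v = i} := by
      rw [Fintype.card_subtype]
      refine (hNM i).trans (hi.trans (Finset.card_le_card ?_))
      intro v hv
      simpa using hv
    obtain ⟨f⟩ : Nonempty (Fin (N i) ↪ {v : Fin ((t + 1) * M + 1) // v ≠ 0 ∧ col v = i}) :=
      Function.Embedding.nonempty_of_card_le (by simpa using hc)
    exact hS.of_injective f f.injective

theorem lt_oddCycleRamsey_iff {t : ℕ} {m : Fin (t + 1) → ℕ} (hm : ∀ i, 1 ≤ m i) (N : ℕ) :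
    N < oddCycleRamsey m ↔ Avoid (Fin N) m := by
  obtain ⟨K, hK⟩ := exists_not_avoid (t + 1) m hm
  rw [avoid_iff, not_not] at hK
  have hne : {r | RamseyProperty m r}.Nonempty := ⟨K, hK⟩
  unfold oddCycleRamsey
  rw [avoid_iff]
  constructor
  · intro h hR
    have : N ∈ {r | RamseyProperty m r} := hR
    have := Nat.sInf_le this
    omega
  · intro h
    by_contra hlt
    push Not at hlt
    exact h (ramseyProperty_mono (Nat.sInf_mem hne) hlt)

section hom

variable {V : Type*}

/-- graph of pairs whose values differ by one -/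
def levelGraph {g : ℕ} (f : V → ZMod g) : SimpleGraph V where
  Adj u v := u ≠ v ∧ (f v = f u + 1 ∨ f u = f v + 1)
  symm := ⟨fun _ _ h => ⟨h.1.symm, h.2.symm⟩⟩
  loopless := ⟨fun _ h => h.1 rfl⟩

theorem levelGraph_walk {g : ℕ} (f : V → ZMod g) : ∀ {u v : V} (p : (levelGraph f).Walk u v),
    ∃ s : ℤ, |s| ≤ p.length ∧ (s - p.length) % 2 = 0 ∧ f v = f u + s := by
  intro u v p
  induction p with
  | nil => exact ⟨0, by simp, by simp, by simp⟩
  | @cons a b c h q ih =>
    obtain ⟨s, h1, h2, h3⟩ := ih
    rw [Walk.length_cons]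
    rcases h.2 with h4 | h4
    · refine ⟨s + 1, ?_, ?_, ?_⟩
      · push_cast
        rw [abs_le] at h1 ⊢
        omega
      · push_cast; omega
      · rw [h3, h4]; push_cast; ring
    · refine ⟨s - 1, ?_, ?_, ?_⟩
      · push_cast
        rw [abs_le] at h1 ⊢
        omega
      · push_cast; omega
      · rw [h3, h4]; push_cast; ring

theorem levelGraph_odd {g : ℕ} (f : V → ZMod g) {v : V} (p : (levelGraph f).Walk v v)
    (hp : Odd p.length) : g ≤ p.length := by
  obtain ⟨s, h1, h2, h3⟩ := levelGraph_walk f p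
  have h4 : (s : ZMod g) = 0 := by
    have : f v + 0 = f v + (s : ZMod g) := by rw [add_zero]; exact h3
    exact (add_left_cancel this).symm
  rw [ZMod.intCast_zmod_eq_zero_iff_dvd] at h4
  obtain ⟨k, hk⟩ := hp
  have hs : s ≠ 0 := by
    rintro rfl
    rw [hk] at h2
    push_cast at h2
    omega
  have := Int.le_of_dvd (abs_pos.2 hs) ((dvd_abs _ _).2 h4)
  omega

end hom

section family

/-- the level functions of the extremal colouring -/
def F (n j a : ℕ) : ℤ := 2 ^ (n - j) - 1 - ((a / 2 ^ (j + 1) : ℕ) : ℤ) + 2 * ((a / 2 ^ j % 2 : ℕ) : ℤ)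

theorem F_zero (n a : ℕ) : F n 0 a = 2 ^ n - 1 - ((a / 2 : ℕ) : ℤ) + 2 * ((a % 2 : ℕ) : ℤ) := by
  simp [F]

theorem F_succ (n j a : ℕ) : F (n + 1) (j + 1) a = F n j (a / 2) := by
  unfold F
  rw [Nat.div_div_eq_div_mul, Nat.div_div_eq_div_mul, ← pow_succ', ← pow_succ',
    Nat.add_sub_add_right]

theorem F_cover : ∀ (n a b : ℕ), a < b → b < 2 ^ (n + 1) →
    b = a + 1 ∨ ∃ j < n, F n j a = F n j b + 1 ∨ F n j b = F n j a + 1 := by
  intro n
  induction n with
  | zero => intro a b hab hb; left; simp at hb; omega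
  | succ n ih =>
    intro a b hab hb
    rcases Nat.lt_or_ge (a / 2) (b / 2) with h1 | h1
    · rcases Nat.lt_or_ge (a / 2 + 1) (b / 2) with h2 | h2
      · rcases ih (a / 2) (b / 2) h1 (by rw [pow_succ] at hb; omega) with h3 | ⟨j, hj, h3⟩
        · omega
        · right
          refine ⟨j + 1, by omega, ?_⟩
          rw [F_succ, F_succ]
          exact h3
      · by_cases hb1 : b = a + 1
        · left; exact hb1
        · right
          refine ⟨0, by omega, ?_⟩
          rw [F_zero, F_zero]
          omega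
    · left; omega

theorem F_ends : ∀ (n a : ℕ), a < 2 ^ (n + 1) →
    a = 0 ∨ a + 1 = 2 ^ (n + 1) ∨ ∃ j < n, F n j a = 0 ∨ F n j a = 2 ^ (n - j) + 1 := by
  intro n
  induction n with
  | zero => intro a ha; simp at ha; rw [zero_add, pow_one]; omega
  | succ n ih =>
    intro a ha
    rcases ih (a / 2) (by rw [pow_succ] at ha; omega) with h | h | ⟨j, hj, h⟩
    · by_cases ha0 : a = 0
      · left; exact ha0
      · right; right
        refine ⟨0, by omega, ?_⟩
        right
        rw [F_zero]
        have : a = 1 := by omega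
        subst this
        norm_num
        ring
    · by_cases ha1 : a + 1 = 2 ^ (n + 1 + 1)
      · right; left; exact ha1
      · right; right
        refine ⟨0, by omega, ?_⟩
        left
        rw [F_zero]
        rw [pow_succ] at ha1 ha
        have h1 : a % 2 = 0 := by omega
        rw [h1]
        have h2 : ((a / 2 : ℕ) : ℤ) + 1 = 2 ^ (n + 1) := by exact_mod_cast h
        push_cast at h2 ⊢
        linarith
    · right; right
      refine ⟨j + 1, by omega, ?_⟩
      rw [F_succ, Nat.add_sub_add_right]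
      exact h

/-- the tuple `(2^n - 1, 2^(n-1), …, 2, 1)` -/
def lowTuple (n : ℕ) : Fin (n + 1) → ℕ := Fin.cons (2 ^ n - 1) (fun j : Fin n => 2 ^ (n - 1 - j))

theorem avoid_lowTuple (n : ℕ) : Avoid (Fin (2 ^ (n + 1) + 1)) (lowTuple n) := by
  classical
  let f0 : Fin (2 ^ (n + 1) + 1) → ZMod (2 ^ (n + 1) + 1) := fun v => ((v : ℕ) : ZMod _)
  let f : (j : Fin n) → Fin (2 ^ (n + 1) + 1) → ZMod (2 ^ (n - j) + 3) := fun j v =>
    if (v : ℕ) < 2 ^ (n + 1) then ((F n j v : ℤ) : ZMod _) else -1
  have key : ∀ u v : Fin (2 ^ (n + 1) + 1), (u : ℕ) < v →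
      (levelGraph f0).Adj u v ∨ ∃ j, (levelGraph (f j)).Adj u v := by
    intro u v huv
    have hne : u ≠ v := fun h => by rw [h] at huv; exact lt_irrefl _ huv
    by_cases hv : (v : ℕ) < 2 ^ (n + 1)
    · rcases F_cover n u v huv hv with h | ⟨j, hj, h⟩
      · left
        refine ⟨hne, Or.inl ?_⟩
        simp only [f0]
        rw [h]; push_cast; ring
      · right
        refine ⟨⟨j, hj⟩, hne, ?_⟩
        have hu : (u : ℕ) < 2 ^ (n + 1) := lt_trans huv hv
        simp only [f, if_pos hu, if_pos hv]
        rcases h with h | h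
        · right; rw [h]; push_cast; ring
        · left; rw [h]; push_cast; ring
    · have hv' : (v : ℕ) = 2 ^ (n + 1) := by have := v.2; omega
      have hu : (u : ℕ) < 2 ^ (n + 1) := by omega
      rcases F_ends n u hu with h | h | ⟨j, hj, h⟩
      · left
        refine ⟨hne, Or.inr ?_⟩
        simp only [f0]
        rw [h, hv']
        have : ((2 ^ (n + 1) + 1 : ℕ) : ZMod (2 ^ (n + 1) + 1)) = 0 := ZMod.natCast_self _
        push_cast at this ⊢
        exact this.symm
      · left
        refine ⟨hne, Or.inl ?_⟩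
        simp only [f0]
        have hvu : (v : ℕ) = (u : ℕ) + 1 := by omega
        rw [hvu]; push_cast; ring
      · right
        refine ⟨⟨j, hj⟩, hne, ?_⟩
        simp only [f, if_pos hu, if_neg hv]
        rcases h with h | h
        · right; rw [h]; push_cast; ring
        · left; rw [h]
          have : ((2 ^ (n - j) + 3 : ℕ) : ZMod (2 ^ (n - j) + 3)) = 0 := ZMod.natCast_self _
          push_cast at this ⊢
          linear_combination (-1 : ZMod (2 ^ (n - j) + 3)) * this
  refine ⟨Fin.cons (levelGraph f0) (fun j => levelGraph (f j)), ?_, ?_⟩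
  · intro u v huv
    have hcase : ∀ a b : Fin (2 ^ (n + 1) + 1), (a : ℕ) < b →
        ∃ i : Fin (n + 1), ((Fin.cons (levelGraph f0) (fun j => levelGraph (f j)) :
          Fin (n + 1) → SimpleGraph (Fin (2 ^ (n + 1) + 1))) i).Adj a b := by
      intro a b hab
      rcases key a b hab with h | ⟨j, h⟩
      · exact ⟨0, h⟩
      · exact ⟨j.succ, h⟩
    rcases Nat.lt_or_gt_of_ne (fun h => huv (Fin.ext h)) with h | h
    · exact hcase u v h
    · obtain ⟨i, hi⟩ := hcase v u h
      exact ⟨i, hi.symm⟩
  · intro i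
    refine Fin.cases ?_ (fun j => ?_) i
    · intro v p hp
      have h1 : 2 ^ (n + 1) + 1 ≤ Walk.length p := levelGraph_odd f0 p hp
      change 2 * (2 ^ n - 1) + 1 < Walk.length p
      have h3 : 2 ^ (n + 1) = 2 ^ n * 2 := pow_succ 2 n
      have h4 : 1 ≤ 2 ^ n := Nat.one_le_two_pow
      generalize Walk.length p = L at h1 ⊢
      omega
    · intro v p hp
      have h1 : 2 ^ (n - (j : ℕ)) + 3 ≤ Walk.length p := levelGraph_odd (f j) p hp
      change 2 * (2 ^ (n - 1 - (j : ℕ))) + 1 < Walk.length p
      have h2 : n - (j : ℕ) = (n - 1 - j) + 1 := by have := j.2; omega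
      have h3 : 2 ^ (n - (j : ℕ)) = 2 ^ (n - 1 - (j : ℕ)) * 2 := by rw [h2, pow_succ]
      generalize Walk.length p = L at h1 ⊢
      omega

end family

end Pool.Agent.Work.MP_92a29d_co
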