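import Mathlib

/-!
Definitions for the statement on four colours.
-/

namespace Pool.Agent.Work.MP_92a29d_co

/-- the four-tuples with value larger than 17 -/
def Exceptional (k l m n : ℕ) : Prop :=
  m = 1 ∨ (l ≤ 3 ∧ m ≤ 2 ∧ n = 1) ∨ (k ≤ 7 ∧ l ≤ 4 ∧ m ≤ 2 ∧ n = 1) ∨
    (k ≤ 6 ∧ l ≤ 5 ∧ m ≤ 2 ∧ n = 1) ∨ (k ≤ 6 ∧ l ≤ 3 ∧ m ≤ 3 ∧ n = 1) ∨
    (k ≤ 5 ∧ l ≤ 2 ∧ m ≤ 2 ∧ n ≤ 2) ∨ (k ≤ 3 ∧ l ≤ 3 ∧ m ≤ 2 ∧ n ≤ 2)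

/-- the tuples that are not decided here -/
def undecided : List (ℕ × ℕ × ℕ × ℕ) := [
  (3, 3, 3, 2), (3, 3, 3, 3), (4, 3, 2, 2), (4, 3, 3, 2), (4, 3, 3, 3), (4, 4, 2, 2),
  (4, 4, 3, 1), (4, 4, 3, 2), (4, 4, 3, 3), (4, 4, 4, 1), (4, 4, 4, 2), (4, 4, 4, 3),
  (5, 3, 2, 2), (5, 3, 3, 2), (5, 3, 3, 3), (5, 4, 2, 2), (5, 4, 3, 1), (5, 4, 3, 2),
  (5, 4, 3, 3), (5, 4, 4, 1), (5, 4, 4, 2), (5, 5, 2, 2), (5, 5, 3, 1), (5, 5, 3, 2),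
  (5, 5, 4, 1), (5, 5, 5, 1), (6, 2, 2, 2), (6, 3, 2, 2), (6, 3, 3, 2), (6, 3, 3, 3),
  (6, 4, 2, 2), (6, 4, 3, 1), (6, 4, 3, 2), (6, 4, 4, 1), (6, 4, 4, 2), (6, 5, 2, 2),
  (6, 5, 3, 1), (6, 5, 3, 2), (6, 5, 4, 1), (6, 6, 2, 1), (6, 6, 2, 2), (6, 6, 3, 1),
  (6, 6, 4, 1), (7, 2, 2, 2), (7, 3, 2, 2), (7, 3, 3, 1), (7, 3, 3, 2), (7, 3, 3, 3),
  (7, 4, 2, 2), (7, 4, 3, 1), (7, 4, 3, 2), (7, 4, 4, 1), (7, 5, 2, 1), (7, 5, 2, 2),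
  (7, 5, 3, 1), (7, 5, 4, 1), (7, 6, 2, 1), (7, 6, 2, 2), (7, 6, 3, 1), (7, 7, 2, 1),
  (7, 7, 2, 2), (7, 7, 3, 1)]

end Pool.Agent.Work.MP_92a29d_co
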