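import Pool.Agent.Work.MP_92a29d_co.Explicit
import Pool.Agent.Work.MP_92a29d_co.FourDefs

/-!
Three and four colours.
-/

namespace Pool.Agent.Work.MP_92a29d_co

open SimpleGraph Finset

section small

theorem removeNth_two (k l : ℕ) (i : Fin 2) :
    i.removeNth ![k, l] = if i = 0 then ![l] else ![k] := by
  funext j
  fin_cases i <;> fin_cases j <;> rfl

/-- two colours -/
theorem not_avoid_two {k l : ℕ} (hl : 1 ≤ l) (hk : 2 ≤ k) : ¬ Avoid (Fin 5) ![k, l] := by
  have h := not_avoid_of_count (t := 1) ![2, 1] (fun i => by fin_cases i <;> simp) 2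
    (fun i => ?_) (by simp)
  · intro h'
    exact h (h'.mono (fun i => by fin_cases i <;> simpa))
  · have h3 := one_colour (i.removeNth ![2, 1]) (by fin_cases i <;> decide)
    rw [oddCycleRamsey_eq_iff _ 2] at h3
    exact h3.2

theorem tail_three (k l m : ℕ) : (0 : Fin 3).removeNth ![k, l, m] = ![l, m] := by
  funext j
  fin_cases j <;> rfl

/-- the good triples -/
def Good3 (k l m : ℕ) : Prop := 2 ≤ l ∧ (4 ≤ k ∨ 3 ≤ l ∨ 2 ≤ m)

instance (k l m : ℕ) : Decidable (Good3 k l m) := by unfold Good3; infer_instance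

theorem not_avoid_three {k l m : ℕ} (hm : 1 ≤ m) (hlm : m ≤ l) (hkl : l ≤ k)
    (h : Good3 k l m) : ¬ Avoid (Fin 9) ![k, l, m] := by
  obtain ⟨hl, h | h | h⟩ := h
  · intro h'
    have := h'.half 0 (by simp; omega) (a := 5) (by norm_num)
    rw [tail_three] at this
    exact not_avoid_two hm hl this
  · have h3 := not_avoid_of_count (t := 2) ![3, 3, 1] (fun i => by fin_cases i <;> simp) 4
      (fun i => ?_) (by simp [Fin.sum_univ_three])
    · intro h'
      exact h3 (h'.mono (fun i => by fin_cases i <;> simp <;> omega))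
    · intro h'
      refine not_avoid_two (k := 3) (l := 1) le_rfl (by norm_num) (h'.mono (fun j => ?_))
      fin_cases i <;> fin_cases j <;> decide
  · intro h'
    exact not_avoid_222 (h'.mono (fun i => by fin_cases i <;> simp <;> omega))

theorem avoid_three {k l m : ℕ} (hlm : m ≤ l) (hkl : l ≤ k)
    (h : ¬ Good3 k l m) (hl : 1 ≤ l) (hm : 1 ≤ m) : Avoid (Fin 9) ![k, l, m] := by
  unfold Good3 at h
  by_cases hl1 : l = 1
  · have h2 : Avoid (Fin 5) ![1, 1] := by
      have := avoid_lowTuple 1
      have e : lowTuple 1 = ![1, 1] := by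
        funext i
        fin_cases i <;> rfl
      rw [e] at this
      exact this
    have h3 : Avoid (Fin 5) ((0 : Fin 3).removeNth ![k, l, m]) := by
      rw [tail_three]
      exact h2.mono (fun i => by fin_cases i <;> simp <;> omega)
    exact (h3.double_fin 0).fin_le (by norm_num)
  · have h2 := avoid_lowTuple 2
    refine (h2.mono ?_)
    intro i
    fin_cases i
    · change k ≤ 3; omega
    · change l ≤ 2; omega
    · change m ≤ 1; omega

end small

section four

theorem tail_four (k l m n : ℕ) : (0 : Fin 4).removeNth ![k, l, m, n] = ![l, m, n] := by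
  funext j
  fin_cases j <;> rfl

theorem avoid_four_of_tail {k l m n : ℕ} (h : Avoid (Fin 9) ![l, m, n]) :
    Avoid (Fin 17) ![k, l, m, n] := by
  have h' : Avoid (Fin 9) ((0 : Fin 4).removeNth ![k, l, m, n]) := by rwa [tail_four]
  exact (h'.double_fin 0).fin_le (by norm_num)

theorem sub_four {k l m n : ℕ} (hmn : n ≤ m) (hlm : m ≤ l) (hkl : l ≤ k)
    (h : ¬ Avoid (Fin 9) ![l, m, n]) (i : Fin 4) :
    ¬ Avoid (Fin 9) (i.removeNth ![k, l, m, n]) := by
  intro h'
  refine h (h'.mono (fun j => ?_))
  fin_cases i <;> fin_cases j <;> first | exact le_rfl | assumption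

theorem not_avoid_four_large {k l m n : ℕ} (hk : 8 ≤ k) (h : ¬ Avoid (Fin 9) ![l, m, n]) :
    ¬ Avoid (Fin 17) ![k, l, m, n] := by
  intro h'
  have := h'.half 0 (by simp; omega) (a := 9) (by norm_num)
  rw [tail_four] at this
  exact h this

theorem not_avoid_four_count {k l m n : ℕ} (hn : 1 ≤ n) (hmn : n ≤ m) (hlm : m ≤ l) (hkl : l ≤ k)
    (hc : (8 - k) ^ 2 + (8 - l) ^ 2 + (8 - m) ^ 2 + (8 - n) ^ 2 < 72)
    (h : ¬ Avoid (Fin 9) ![l, m, n]) : ¬ Avoid (Fin 17) ![k, l, m, n] := by
  refine not_avoid_of_count (t := 3) ![k, l, m, n] (fun i => ?_) 8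
    (sub_four hmn hlm hkl h) ?_
  · fin_cases i <;> simp <;> omega
  · rw [Fin.sum_univ_four]
    simp
    omega

instance (k l m n : ℕ) : Decidable (Exceptional k l m n) := by
  unfold Exceptional; infer_instance

theorem avoid_exceptional {k l m n : ℕ} (hn : 1 ≤ n) (hmn : n ≤ m) (hlm : m ≤ l) (hkl : l ≤ k)
    (h : Exceptional k l m n) : Avoid (Fin 17) ![k, l, m, n] := by
  rcases h with h | h | h | h | h | h | h
  · exact avoid_four_of_tail (avoid_three hmn hlm (by unfold Good3; omega) (by omega) hn)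
  · exact avoid_four_of_tail (avoid_three hmn hlm (by unfold Good3; omega) (by omega) hn)
  · exact avoid_7421.mono (fun i => by fin_cases i <;> simp <;> omega)
  · exact avoid_6521.mono (fun i => by fin_cases i <;> simp <;> omega)
  · exact avoid_6331.mono (fun i => by fin_cases i <;> simp <;> omega)
  · exact avoid_5222.mono (fun i => by fin_cases i <;> simp <;> omega)
  · exact avoid_3322.mono (fun i => by fin_cases i <;> simp <;> omega)

theorem good3_of_not_exceptional {k l m n : ℕ} (hn : 1 ≤ n) (hmn : n ≤ m)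
    (h : ¬ Exceptional k l m n) : Good3 l m n := by
  unfold Exceptional at h
  unfold Good3
  omega

end four

end Pool.Agent.Work.MP_92a29d_co
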