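import Pool.Agent.Work.MP_92a29d_co.Four

/-!
Four colours: the value 17 outside an explicit finite list.
-/

namespace Pool.Agent.Work.MP_92a29d_co

/-- one case of the finite check -/
def caseOk (k l m n : ℕ) : Bool :=
  !(decide (1 ≤ n) && decide (n ≤ m) && decide (m ≤ l) && decide (l ≤ k)) ||
    undecided.contains (k, l, m, n) || decide (Exceptional k l m n) ||
    decide ((8 - k) ^ 2 + (8 - l) ^ 2 + (8 - m) ^ 2 + (8 - n) ^ 2 < 72)

theorem all_cases : ((List.range 8).all fun k => (List.range 8).all fun l =>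
    (List.range 8).all fun m => (List.range 8).all fun n => caseOk k l m n) = true := by
  decide +kernel

theorem finite_check {k l m n : ℕ} (hk : k < 8) (hn : 1 ≤ n) (hmn : n ≤ m) (hlm : m ≤ l)
    (hkl : l ≤ k) (hU : (k, l, m, n) ∉ undecided) (hE : ¬ Exceptional k l m n) :
    (8 - k) ^ 2 + (8 - l) ^ 2 + (8 - m) ^ 2 + (8 - n) ^ 2 < 72 := by
  have h := all_cases
  rw [List.all_eq_true] at h
  have h := h k (List.mem_range.2 hk)
  rw [List.all_eq_true] at h
  have h := h l (List.mem_range.2 (by omega))
  rw [List.all_eq_true] at h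
  have h := h m (List.mem_range.2 (by omega))
  rw [List.all_eq_true] at h
  have h := h n (List.mem_range.2 (by omega))
  unfold caseOk at h
  simp only [Bool.or_eq_true, Bool.not_eq_true', Bool.and_eq_false_iff, decide_eq_true_eq,
    decide_eq_false_iff_not, List.contains_iff_mem] at h
  rcases h with ((h | h) | h) | h
  · exfalso
    rcases h with ((h | h) | h) | h
    · exact h hn
    · exact h hmn
    · exact h hlm
    · exact h hkl
  · exact absurd h hU
  · exact absurd h hE
  · exact h

theorem four_colours (k l m n : ℕ) (hn : 1 ≤ n) (hmn : n ≤ m) (hlm : m ≤ l) (hkl : l ≤ k)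
    (hU : (k, l, m, n) ∉ undecided) :
    oddCycleRamsey ![k, l, m, n] = 17 ↔ ¬ Exceptional k l m n := by
  rw [oddCycleRamsey_eq_iff _ 16]
  constructor
  · rintro ⟨_, h⟩ hE
    exact h (avoid_exceptional hn hmn hlm hkl hE)
  · intro hE
    refine ⟨avoid_pow 4 _, ?_⟩
    have h3 : ¬ Avoid (Fin 9) ![l, m, n] :=
      not_avoid_three hn hmn hlm (good3_of_not_exceptional hn hmn hE)
    rcases Nat.lt_or_ge k 8 with hk | hk
    · exact not_avoid_four_count hn hmn hlm hkl
        (finite_check hk hn hmn hlm hkl hU hE) h3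
    · exact not_avoid_four_large hk h3

end Pool.Agent.Work.MP_92a29d_co
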