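import Pool.Agent.Work.MP_92a29d_co.Nine

/-!
Consequences for the number `oddCycleRamsey`: the counting criterion, the sharp threshold tuple,
three colours.
-/

namespace Pool.Agent.Work.MP_92a29d_co

open SimpleGraph Finset

/-- If `2 ^ (t + 2) + 1` vertices are not avoidable then neither are `2 ^ (t + 1) + 1` vertices
after deleting a colour. -/
theorem sub_good {t : ℕ} {m : Fin (t + 2) → ℕ} (h : oddCycleRamsey m = 2 ^ (t + 2) + 1)
    (i : Fin (t + 2)) : oddCycleRamsey (i.removeNth m) = 2 ^ (t + 1) + 1 := by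
  rw [oddCycleRamsey_eq_iff] at h ⊢
  refine ⟨avoid_pow _ _, fun h' => h.2 ?_⟩
  exact (h'.double_fin i).fin_le (by rw [pow_succ 2 (t + 1)]; omega)

theorem count_iff (t : ℕ) (m : Fin (t + 2) → ℕ) (hm : ∀ i, 1 ≤ m i)
    (h : ∑ i, (2 ^ (t + 1) - m i) ^ 2 + (t + 2) * 2 ^ (t + 2) <
      2 ^ (t + 1) * (2 ^ (t + 2) + 1)) :
    oddCycleRamsey m = 2 ^ (t + 2) + 1 ↔
      ∀ i : Fin (t + 2), oddCycleRamsey (i.removeNth m) = 2 ^ (t + 1) + 1 := by
  constructor
  · exact fun h i => sub_good h i
  · intro hs
    rw [oddCycleRamsey_eq_iff]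
    refine ⟨avoid_pow _ _, ?_⟩
    have h2 : 2 ^ (t + 2) = 2 * 2 ^ (t + 1) := by rw [pow_succ 2 (t + 1)]; ring
    rw [h2] at h ⊢
    refine not_avoid_of_count m hm (2 ^ (t + 1)) ?_ ?_
    · intro i
      exact ((oddCycleRamsey_eq_iff _ _).1 (hs i)).2
    · rw [Finset.sum_add_distrib, Finset.sum_const, Finset.card_univ, Fintype.card_fin,
        smul_eq_mul]
      exact h

/-- the threshold tuple `(2 ^ t, …, 2, 1)` -/
def threshold (t : ℕ) : Fin (t + 1) → ℕ := fun i => 2 ^ (t - i)

theorem removeNth_zero_threshold (t : ℕ) :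
    (0 : Fin (t + 2)).removeNth (threshold (t + 1)) = threshold t := by
  funext j
  change 2 ^ (t + 1 - (((0 : Fin (t + 2)).succAbove j : Fin (t + 2)) : ℕ)) = 2 ^ (t - (j : ℕ))
  rw [Fin.succAbove_zero, Fin.val_succ]
  congr 1
  omega

theorem one_colour (m : Fin 1 → ℕ) (hm : 1 ≤ m 0) : oddCycleRamsey m = 3 := by
  rw [oddCycleRamsey_eq_iff m 2]
  refine ⟨avoid_pow 1 m, ?_⟩
  rintro ⟨G, h1, h2⟩
  have hadj : ∀ u v : Fin 3, u ≠ v → (G 0).Adj u v := by
    intro u v huv
    obtain ⟨i, hi⟩ := h1 u v huv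
    have hi0 : i = 0 := Fin.ext (by omega)
    rwa [hi0] at hi
  have := h2 0 0 (Walk.cons (hadj 0 1 (by decide)) (Walk.cons (hadj 1 2 (by decide))
    (Walk.cons (hadj 2 0 (by decide)) Walk.nil))) (by simp only [Walk.length_cons, Walk.length_nil]; decide)
  simp only [Walk.length_cons, Walk.length_nil] at this
  omega

theorem threshold_value (t : ℕ) : oddCycleRamsey (threshold t) = 2 ^ (t + 1) + 1 := by
  induction t with
  | zero => exact one_colour _ (by simp [threshold])
  | succ t ih =>
    rw [reduction (threshold (t + 1)) 0 (by simp [threshold]), removeNth_zero_threshold]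
    exact ih

theorem avoid_below : ∀ (t : ℕ) (m : Fin (t + 1) → ℕ), (∀ i, m i ≤ threshold t i) →
    (∃ i, m i < threshold t i) → Avoid (Fin (2 ^ (t + 1) + 1)) m := by
  intro t
  induction t with
  | zero =>
    intro m _ hlt
    refine (avoid_lowTuple 0).mono ?_
    intro i
    obtain ⟨j, hj⟩ := hlt
    have hij : i = j := Fin.ext (by omega)
    rw [hij]
    have : m j = 0 := by
      unfold threshold at hj
      simp at hj
      exact hj
    omega
  | succ t ih =>
    intro m hle hlt
    by_cases h0 : m 0 < threshold (t + 1) 0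
    · refine (avoid_lowTuple (t + 1)).mono ?_
      intro i
      refine Fin.cases ?_ (fun j => ?_) i
      · have : m 0 < 2 ^ (t + 1) := by simpa [threshold] using h0
        change m 0 ≤ 2 ^ (t + 1) - 1
        omega
      · have := hle j.succ
        unfold threshold at this
        change m j.succ ≤ 2 ^ (t + 1 - 1 - (j : ℕ))
        have e : t + 1 - 1 - (j : ℕ) = t + 1 - (j.succ : ℕ) := by
          rw [Fin.val_succ]; omega
        rw [e]; exact this
    · obtain ⟨i, hi⟩ := hlt
      have hi0 : i ≠ 0 := fun h => h0 (h ▸ hi)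
      obtain ⟨j, rfl⟩ := Fin.exists_succ_eq.2 hi0
      have key : ∀ j : Fin (t + 1), threshold (t + 1) j.succ = threshold t j := by
        intro j
        unfold threshold
        congr 1
        rw [Fin.val_succ]; omega
      have := ih ((0 : Fin (t + 2)).removeNth m) (fun j => by
          change m ((0 : Fin (t + 2)).succAbove j) ≤ _
          rw [Fin.succAbove_zero, ← key]; exact hle _) ⟨j, by
          change m ((0 : Fin (t + 2)).succAbove j) < _
          rw [Fin.succAbove_zero, ← key]; exact hi⟩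
      exact (this.double_fin 0).fin_le (by rw [pow_succ 2 (t + 1)]; omega)

/-- The threshold tuple is a minimal tuple with value `2 ^ (t + 1) + 1`. -/
theorem threshold_sharp (t : ℕ) (m : Fin (t + 1) → ℕ) (hm : ∀ i, 1 ≤ m i)
    (hle : ∀ i, m i ≤ threshold t i) (hne : m ≠ threshold t) :
    2 ^ (t + 1) + 1 < oddCycleRamsey m := by
  rw [lt_oddCycleRamsey_iff hm]
  refine avoid_below t m hle ?_
  by_contra hcon
  push Not at hcon
  exact hne (funext fun i => le_antisymm (hle i) (hcon i))

/-- The value does not depend on the order of the parameters. -/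
theorem Avoid.perm {V : Type*} {t : ℕ} {m : Fin t → ℕ} (h : Avoid V m) (σ : Fin t ≃ Fin t) :
    Avoid V (m ∘ σ) := by
  obtain ⟨G, h1, h2⟩ := h
  refine ⟨G ∘ σ, fun u v huv => ?_, fun i v p hp => h2 (σ i) v p hp⟩
  obtain ⟨i, hi⟩ := h1 u v huv
  exact ⟨σ.symm i, by simpa using hi⟩

section three

/-- Three pentagon-free triangle-free graphs do not cover the complete graph on 9 vertices. -/
theorem not_avoid_222 : ¬ Avoid (Fin 9) (fun _ : Fin 3 => 2) := by
  rintro ⟨G, h1, h2⟩
  have hpair : ∀ i : Fin 3, ¬ Avoid (Fin 5) (i.removeNth (fun _ : Fin 3 => 2)) := by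
    intro i
    have e : (i.removeNth (fun _ : Fin 3 => 2)) = (fun _ : Fin 2 => 2) := rfl
    rw [e]
    have := not_avoid_of_count (t := 1) (fun _ : Fin 2 => 2) (fun _ => by norm_num) 2
      (fun i => ?_) (by simp)
    · exact this
    · have h3 := one_colour (i.removeNth (fun _ : Fin 2 => 2)) (by change 1 ≤ 2; norm_num)
      rw [oddCycleRamsey_eq_iff _ 2] at h3
      exact h3.2
  have hnb : ∀ i, ∃ v, ∃ p : (G i).Walk v v, Odd p.length := by
    intro i
    by_contra hcon
    push Not at hcon
    exact hpair i (Avoid.half_of_even G h1 h2 i (fun v p => Nat.not_odd_iff_even.1 (hcon v p))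
      (by norm_num))
  have hb : ∀ i, ∑ v, ∑ w, ind (G i) v w ≤ 24 := fun i =>
    (count_bound (M := 4) (m := 2) (by simp) (hnb i) (by norm_num) (h2 i)).2
  have hcov : 72 ≤ ∑ i, ∑ v, ∑ w, ind (G i) v w := by
    rw [Finset.sum_comm]
    calc 72 = ∑ v : Fin 9, 8 := by simp
      _ ≤ ∑ v : Fin 9, ∑ i, ∑ w, ind (G i) v w := by
          apply Finset.sum_le_sum
          intro v _
          rw [Finset.sum_comm]
          calc 8 = (univ.erase v).card := by
                rw [Finset.card_erase_of_mem (mem_univ _)]; simp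
            _ = ∑ w ∈ univ.erase v, 1 := by simp
            _ ≤ ∑ w ∈ univ.erase v, ∑ i, ind (G i) v w := by
                apply Finset.sum_le_sum
                intro w hw
                obtain ⟨i, hi⟩ := h1 v w (Finset.ne_of_mem_erase hw).symm
                calc 1 = ind (G i) v w := by unfold ind; rw [if_pos hi]
                  _ ≤ ∑ i, ind (G i) v w :=
                    Finset.single_le_sum (f := fun i => ind (G i) v w)
                      (fun _ _ => Nat.zero_le _) (mem_univ i)
            _ ≤ ∑ w, ∑ i, ind (G i) v w :=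
                Finset.sum_le_sum_of_subset (Finset.erase_subset _ _)
  rw [Fin.sum_univ_three] at hcov
  have h0 := hb 0
  have h1' := hb 1
  have h2' := hb 2
  obtain ⟨e, he⟩ := tight (G := G 0) (by simp) (hnb 0) (h2 0) (by omega)
  refine no_two (G 1) (G 2) e ?_ (h2 1) (h2 2)
  intro u v huv
  obtain ⟨hne, hn0⟩ := he u v huv
  obtain ⟨i, hi⟩ := h1 _ _ hne
  match i, hi with
  | 0, hi => exact absurd hi hn0
  | 1, hi => exact Or.inl hi
  | 2, hi => exact Or.inr hi

end three

end Pool.Agent.Work.MP_92a29d_co
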