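import Pool.Agent.Work.MP_92a29d_co.Tight

/-!
`r(≤ (C_5, C_5, C_5)) = 9`: the equality case of the counting bound on nine vertices.
-/

namespace Pool.Agent.Work.MP_92a29d_co

open SimpleGraph Finset

variable {V : Type*} {G : SimpleGraph V}

theorem zmod7_aux : ∀ i j : ZMod 7,
    (∀ a ∈ [i, i + 2], ∀ b ∈ [j, j + 2], (b - a).val ≠ 0 ∧ (b - a).val ≠ 2 ∧ (a - b).val ≠ 2) →
    j = i + 1 ∨ i = j + 1 := by
  decide

/-- labelling of the vertices -/
def lab (c : ZMod 7 → V) (i : ZMod 7) (x y : V) (k : ℕ) : V :=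
  if k = 7 then x else if k = 8 then y else c (i + 1 + k)

theorem lab_adj {c : ZMod 7 → V} (h : ShortOdd G 7 c) {i : ZMod 7} {x y : V}
    (h1 : G.Adj x (c i)) (h2 : G.Adj x (c (i + 2))) (h3 : G.Adj y (c (i + 1)))
    (h4 : G.Adj y (c (i + 1 + 2))) (h5 : G.Adj x y) :
    ∀ p ∈ hEdges, G.Adj (lab c i x y p.1) (lab c i x y p.2) := by
  have hs : ∀ k : ℕ, G.Adj (c (i + 1 + k)) (c (i + 1 + (k + 1 : ℕ))) := by
    intro k
    have := h.adj (i + 1 + k)
    push_cast
    rwa [← add_assoc]
  have e6 : i + 1 + ((6 : ℕ) : ZMod 7) = i := by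
    have : ((6 : ℕ) : ZMod 7) = -1 := by decide
    rw [this]; ring
  intro p hp
  unfold hEdges at hp
  simp only [List.mem_cons, List.not_mem_nil, or_false] at hp
  rcases hp with rfl | rfl | rfl | rfl | rfl | rfl | rfl | rfl | rfl | rfl | rfl | rfl
  · exact hs 0
  · exact hs 1
  · exact hs 2
  · exact hs 3
  · exact hs 4
  · exact hs 5
  · change G.Adj (c (i + 1 + (0 : ℕ))) (c (i + 1 + (6 : ℕ)))
    rw [e6, Nat.cast_zero, add_zero]
    exact (h.adj i).symm
  · change G.Adj (c (i + 1 + (6 : ℕ))) x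
    rw [e6]; exact h1.symm
  · change G.Adj (c (i + 1 + (1 : ℕ))) x
    have : i + 1 + ((1 : ℕ) : ZMod 7) = i + 2 := by push_cast; ring
    rw [this]; exact h2.symm
  · change G.Adj (c (i + 1 + (0 : ℕ))) y
    rw [Nat.cast_zero, add_zero]; exact h3.symm
  · change G.Adj (c (i + 1 + (2 : ℕ))) y
    rw [Nat.cast_two]; exact h4.symm
  · exact h5

theorem lab_inj {c : ZMod 7 → V} (hc : Function.Injective c) {i : ZMod 7} {x y : V}
    (hx : ∀ j, c j ≠ x) (hy : ∀ j, c j ≠ y) (hxy : x ≠ y) :
    Function.Injective (fun k : Fin 9 => lab c i x y k) := by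
  have key : ∀ k : Fin 9, k = 7 ∨ k = 8 ∨ (k : ℕ) < 7 := by decide
  have hlow : ∀ k : Fin 9, (k : ℕ) < 7 → lab c i x y k = c (i + 1 + (k : ℕ)) := by
    intro k hk
    unfold lab
    rw [if_neg (by omega), if_neg (by omega)]
  intro k l hkl
  change lab c i x y k = lab c i x y l at hkl
  rcases key k with rfl | rfl | hk <;> rcases key l with rfl | rfl | hl
  · rfl
  · exact absurd hkl hxy
  · rw [hlow l hl] at hkl; exact absurd hkl.symm (hx _)
  · exact absurd hkl.symm hxy
  · rfl
  · rw [hlow l hl] at hkl; exact absurd hkl.symm (hy _)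
  · rw [hlow k hk] at hkl; exact absurd hkl (hx _)
  · rw [hlow k hk] at hkl; exact absurd hkl (hy _)
  · rw [hlow k hk, hlow l hl] at hkl
    have h1 := add_left_cancel (hc hkl)
    have h2 := congrArg ZMod.val h1
    rw [ZMod.val_natCast_of_lt hk, ZMod.val_natCast_of_lt hl] at h2
    exact Fin.ext h2

theorem hsum : ∑ u : Fin 9, ∑ v : Fin 9,
    (if ((u : ℕ), (v : ℕ)) ∈ hEdges ∨ ((v : ℕ), (u : ℕ)) ∈ hEdges then 1 else 0) = 24 := by
  decide +kernel

variable [Fintype V]

/-- The equality case of the counting bound on nine vertices. -/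
theorem tight (hV : Fintype.card V = 9) (hnb : ∃ v, ∃ p : G.Walk v v, Odd p.length)
    (hG : ∀ v (p : G.Walk v v), Odd p.length → 5 < p.length)
    (hD : 24 ≤ ∑ v, ∑ w, ind G v w) :
    ∃ e : ℕ → V, (∀ u v, okPair (u, v) = true → e u ≠ e v ∧ ¬ G.Adj (e u) (e v)) := by
  classical
  obtain ⟨g, c, h, hg⟩ := exists_shortOdd (m := 2) hnb (by norm_num) hG
  have : NeZero g := ⟨by omega⟩
  have hle := h.le_card
  have hsumle := h.sum_le
  rw [hV] at hle hsumle
  have hg7 : g = 7 := by
    obtain ⟨k, hk⟩ := h.odd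
    have : g = 7 ∨ g = 9 := by omega
    rcases this with h | h
    · exact h
    · subst h; omega
  subst hg7
  have hD24 : ∑ v, ∑ w, ind G v w = 24 := by omega
  -- splitting of the sum
  have hC : (univ.image c).card = 7 := by
    rw [Finset.card_image_of_injective _ h.injective, Finset.card_univ, ZMod.card]
  have hC' : ((univ.image c)ᶜ).card = 2 := by
    rw [Finset.card_compl, hC, hV]
  obtain ⟨x, y, hxy, hxyC⟩ := Finset.card_eq_two.1 hC'
  have hx : x ∈ (univ.image c)ᶜ := by rw [hxyC]; simp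
  have hy : y ∈ (univ.image c)ᶜ := by rw [hxyC]; simp
  have hxc : ∀ j, c j ≠ x := by
    intro j hj
    rw [Finset.mem_compl] at hx
    exact hx (Finset.mem_image.2 ⟨j, mem_univ _, hj⟩)
  have hyc : ∀ j, c j ≠ y := by
    intro j hj
    rw [Finset.mem_compl] at hy
    exact hy (Finset.mem_image.2 ⟨j, mem_univ _, hj⟩)
  have hsplit : ∀ f : V → ℕ, ∑ v, f v = ∑ v ∈ univ.image c, f v + (f x + f y) := by
    intro f
    rw [← Finset.sum_add_sum_compl (univ.image c) f, hxyC, Finset.sum_pair hxy]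
  have h1 : ∑ v ∈ univ.image c, ∑ w, ind G v w ≤ 18 := by
    rw [Finset.sum_comm]
    calc ∑ w, ∑ v ∈ univ.image c, ind G v w ≤ ∑ _w : V, 2 := by
          apply Finset.sum_le_sum
          intro w _
          calc ∑ v ∈ univ.image c, ind G v w = ∑ v ∈ univ.image c, ind G w v :=
                Finset.sum_congr rfl (fun v _ => ind_comm v w)
            _ ≤ 2 := h.sum_cycle_le w
      _ = 18 := by rw [Finset.sum_const, Finset.card_univ, hV]; rfl
  have hnn : ∀ z : V, ind G z z = 0 := fun z => by unfold ind; rw [if_neg (G.loopless.irrefl z)]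
  have hxs := h.sum_cycle_le x
  have hys := h.sum_cycle_le y
  have hind := ind_le (G := G) x y
  have hind' := ind_comm (G := G) x y
  have htot := hD24
  rw [hsplit, hsplit (fun w => ind G x w), hsplit (fun w => ind G y w), hnn x, hnn y] at htot
  have hx2 : ∑ v ∈ univ.image c, ind G x v = 2 := by omega
  have hy2 : ∑ v ∈ univ.image c, ind G y v = 2 := by omega
  have hadj : G.Adj x y := by
    by_contra hcon
    have : ind G x y = 0 := by unfold ind; rw [if_neg hcon]
    omega
  have hnbr : ∀ z, ∑ v ∈ univ.image c, ind G z v = 2 →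
      ∃ i, G.Adj z (c i) ∧ G.Adj z (c (i + 2)) := by
    intro z hz
    rw [Finset.sum_image (fun i _ j _ hij => h.injective hij)] at hz
    unfold ind at hz
    rw [← Finset.card_filter] at hz
    obtain ⟨i, j, hij, hs⟩ := Finset.card_eq_two.1 hz
    have hi : G.Adj z (c i) := by
      have : i ∈ univ.filter (fun i => G.Adj z (c i)) := by rw [hs]; simp
      exact (Finset.mem_filter.1 this).2
    have hj : G.Adj z (c j) := by
      have : j ∈ univ.filter (fun i => G.Adj z (c i)) := by rw [hs]; simp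
      exact (Finset.mem_filter.1 this).2
    rcases h.near hi hj hij with rfl | rfl
    · exact ⟨i, hi, hj⟩
    · refine ⟨i - 2, hj, ?_⟩
      rw [sub_add_cancel]; exact hi
  obtain ⟨i, hi1, hi2⟩ := hnbr x hx2
  obtain ⟨j, hj1, hj2⟩ := hnbr y hy2
  have hfar : ∀ a ∈ [i, i + 2], ∀ b ∈ [j, j + 2],
      (b - a).val ≠ 0 ∧ (b - a).val ≠ 2 ∧ (a - b).val ≠ 2 := by
    intro a ha b hb
    have hxa : G.Adj x (c a) := by
      simp only [List.mem_cons, List.not_mem_nil, or_false] at ha
      rcases ha with rfl | rfl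
      · exact hi1
      · exact hi2
    have hyb : G.Adj y (c b) := by
      simp only [List.mem_cons, List.not_mem_nil, or_false] at hb
      rcases hb with rfl | rfl
      · exact hj1
      · exact hj2
    obtain ⟨p, hp⟩ := h.walk' a b
    obtain ⟨q, hq⟩ := h.walk' b a
    have e1 := hG x (Walk.cons hxa ((p.concat hyb.symm).concat hadj.symm))
    have e2 := hG y (Walk.cons hyb ((q.concat hxa.symm).concat hadj))
    simp only [Walk.length_cons, Walk.length_concat, hp, hq] at e1 e2
    refine ⟨fun h0 => ?_, fun h0 => ?_, fun h0 => ?_⟩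
    · rw [h0] at e1; have := e1 (by decide); omega
    · rw [h0] at e1; have := e1 (by decide); omega
    · rw [h0] at e2; have := e2 (by decide); omega
  -- the labelling
  have fin : ∀ (i : ZMod 7) (x y : V), (∀ j, c j ≠ x) → (∀ j, c j ≠ y) → x ≠ y →
      G.Adj x (c i) → G.Adj x (c (i + 2)) → G.Adj y (c (i + 1)) → G.Adj y (c (i + 1 + 2)) →
      G.Adj x y →
      ∃ e : ℕ → V, (∀ u v, okPair (u, v) = true → e u ≠ e v ∧ ¬ G.Adj (e u) (e v)) := by
    intro i x y hx hy hxy h1 h2 h3 h4 h5
    have hinj := lab_inj h.injective (i := i) hx hy hxy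
    have hladj := lab_adj h h1 h2 h3 h4 h5
    have hbij : Function.Bijective (fun k : Fin 9 => lab c i x y k) := by
      rw [Fintype.bijective_iff_injective_and_card]
      exact ⟨hinj, by rw [Fintype.card_fin, hV]⟩
    let E : Fin 9 ≃ V := Equiv.ofBijective _ hbij
    have hE : ∀ k : Fin 9, E k = lab c i x y k := fun k => rfl
    have hsumE : ∑ u : Fin 9, ∑ v : Fin 9, ind G (E u) (E v) = 24 := by
      rw [← hD24, ← Equiv.sum_comp E]
      exact Finset.sum_congr rfl (fun u _ => Equiv.sum_comp E (fun v => ind G (E u) v))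
    have hle : ∀ u v : Fin 9, (if ((u : ℕ), (v : ℕ)) ∈ hEdges ∨ ((v : ℕ), (u : ℕ)) ∈ hEdges
        then 1 else 0) ≤ ind G (E u) (E v) := by
      intro u v
      split_ifs with huv
      · have : G.Adj (E u) (E v) := by
          rw [hE, hE]
          rcases huv with h | h
          · exact hladj _ h
          · exact (hladj _ h).symm
        unfold ind; rw [if_pos this]
      · exact Nat.zero_le _
    have heq : ∀ u v : Fin 9, (if ((u : ℕ), (v : ℕ)) ∈ hEdges ∨ ((v : ℕ), (u : ℕ)) ∈ hEdges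
        then 1 else 0) = ind G (E u) (E v) := by
      have h1 := (Finset.sum_eq_sum_iff_of_le (s := (univ : Finset (Fin 9)))
        (fun u _ => Finset.sum_le_sum (s := (univ : Finset (Fin 9))) (fun v _ => hle u v))).1
        (hsum.trans hsumE.symm)
      intro u v
      exact (Finset.sum_eq_sum_iff_of_le (fun v _ => hle u v)).1 (h1 u (mem_univ _)) v (mem_univ _)
    refine ⟨lab c i x y, fun u v huv => ?_⟩
    unfold okPair at huv
    simp only [Bool.and_eq_true, bne_iff_ne, decide_eq_true_eq, Bool.not_eq_true'] at huv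
    obtain ⟨⟨⟨⟨huv1, hu⟩, hv⟩, hn1⟩, hn2⟩ := huv
    constructor
    · intro hcon
      have := hinj (a₁ := ⟨u, hu⟩) (a₂ := ⟨v, hv⟩) hcon
      exact huv1 (Fin.mk.inj_iff.1 this)
    · intro hcon
      have h6 := heq ⟨u, hu⟩ ⟨v, hv⟩
      rw [if_neg] at h6
      · have : ind G (E ⟨u, hu⟩) (E ⟨v, hv⟩) = 1 := by
          unfold ind; rw [if_pos]; exact hcon
        omega
      · rintro (h7 | h7)
        · rw [List.contains_eq_mem, decide_eq_false_iff_not] at hn1
          exact hn1 h7
        · rw [List.contains_eq_mem, decide_eq_false_iff_not] at hn2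
          exact hn2 h7
  rcases zmod7_aux i j hfar with rfl | rfl
  · exact fin i x y hxc hyc hxy hi1 hi2 hj1 hj2 hadj
  · exact fin j y x hyc hxc hxy.symm hj1 hj2 hi1 hi2 hadj.symm

end Pool.Agent.Work.MP_92a29d_co
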