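import Mathlib

/-!
The family of tuples generated from `(0)` by splitting an entry and by inserting an entry.
-/

namespace Pool.Agent.Work.MP_92a29d_co

/-- Tuples obtained from the one-term tuple `(0)` by repeatedly replacing an entry `a` by the two
entries `2 a + 1, a + 1`, or inserting an arbitrary entry. -/
inductive SplitTuple : List ℕ → Prop
  | base : SplitTuple [0]
  | split (l₁ l₂ : List ℕ) (a : ℕ) : SplitTuple (l₁ ++ a :: l₂) →
      SplitTuple (l₁ ++ (2 * a + 1) :: (a + 1) :: l₂)
  | insert (l₁ l₂ : List ℕ) (a : ℕ) : SplitTuple (l₁ ++ l₂) → SplitTuple (l₁ ++ a :: l₂)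

end Pool.Agent.Work.MP_92a29d_co
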