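import Pool.Agent.Work.MP_92a29d_co.Family
import Pool.Agent.Work.MP_92a29d_co.SplitDefs

/-!
Level functions and the splitting operation.
-/

namespace Pool.Agent.Work.MP_92a29d_co

open SimpleGraph

/-- A system of level functions on `V`: a list of pairs (parameter `a`, function to
`{0, …, 2 a + 1}`) such that any two points differ by one in some level function and each point
has an extreme level in some level function. -/
structure LevelSystem (V : Type) (S : List (ℕ × (V → ℤ))) : Prop where
  range : ∀ p ∈ S, ∀ x, 0 ≤ p.2 x ∧ p.2 x ≤ 2 * p.1 + 1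
  cover : ∀ x y, x ≠ y → ∃ p ∈ S, p.2 x = p.2 y + 1 ∨ p.2 y = p.2 x + 1
  ends : ∀ x, ∃ p ∈ S, p.2 x = 0 ∨ p.2 x = 2 * p.1 + 1

/-- 0 or 1 -/
def bit (b : Bool) : ℤ := if b then 1 else 0

theorem bit_cases (b : Bool) : bit b = 0 ∨ bit b = 1 := by cases b <;> simp [bit]

theorem bit_inj {b c : Bool} (h : b ≠ c) : bit b = bit c + 1 ∨ bit c = bit b + 1 := by
  cases b <;> cases c <;> simp_all [bit]

/-- old level functions on `V × Bool` -/
def lift {V : Type} (p : ℕ × (V → ℤ)) : ℕ × (V × Bool → ℤ) := (p.1, fun x => p.2 x.1)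

theorem LevelSystem.split {V : Type} {S₁ S₂ : List (ℕ × (V → ℤ))} {a : ℕ} {f : V → ℤ}
    (h : LevelSystem V (S₁ ++ (a, f) :: S₂)) :
    LevelSystem (V × Bool) (S₁.map lift ++ (2 * a + 1, fun x => 2 * f x.1 + bit x.2) ::
      (a + 1, fun x => 2 * a + 1 - f x.1 + 2 * bit x.2) :: S₂.map lift) := by
  have hf : ∀ x, 0 ≤ f x ∧ f x ≤ 2 * a + 1 := fun x => h.range (a, f) (by simp) x
  have hold : ∀ p ∈ S₁ ++ (a, f) :: S₂, p = (a, f) ∨ lift p ∈ S₁.map lift ++
      (2 * a + 1, fun x : V × Bool => 2 * f x.1 + bit x.2) ::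
      (a + 1, fun x => 2 * a + 1 - f x.1 + 2 * bit x.2) :: S₂.map lift := by
    intro p hp
    rw [List.mem_append, List.mem_cons] at hp
    rcases hp with hp | hp | hp
    · right
      rw [List.mem_append]
      left
      exact List.mem_map_of_mem hp
    · exact Or.inl hp
    · right
      rw [List.mem_append, List.mem_cons, List.mem_cons]
      right; right; right
      exact List.mem_map_of_mem hp
  have hm1 : (2 * a + 1, fun x : V × Bool => 2 * f x.1 + bit x.2) ∈ S₁.map lift ++
      (2 * a + 1, fun x : V × Bool => 2 * f x.1 + bit x.2) ::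
      (a + 1, fun x => 2 * a + 1 - f x.1 + 2 * bit x.2) :: S₂.map lift := by simp
  have hm2 : (a + 1, fun x : V × Bool => 2 * a + 1 - f x.1 + 2 * bit x.2) ∈ S₁.map lift ++
      (2 * a + 1, fun x : V × Bool => 2 * f x.1 + bit x.2) ::
      (a + 1, fun x => 2 * a + 1 - f x.1 + 2 * bit x.2) :: S₂.map lift := by simp
  refine ⟨?_, ?_, ?_⟩
  · rintro p hp ⟨x, b⟩
    rw [List.mem_append, List.mem_cons, List.mem_cons] at hp
    have hx := hf x
    have hb := bit_cases b
    rcases hp with hp | rfl | rfl | hp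
    · obtain ⟨q, hq, rfl⟩ := List.mem_map.1 hp
      exact h.range q (by simp [hq]) x
    · simp only
      push_cast
      omega
    · simp only
      push_cast
      omega
    · obtain ⟨q, hq, rfl⟩ := List.mem_map.1 hp
      exact h.range q (by simp [hq]) x
  · rintro ⟨x, b⟩ ⟨y, c⟩ hne
    by_cases hxy : x = y
    · subst hxy
      have hbc : b ≠ c := fun e => hne (by rw [e])
      refine ⟨_, hm1, ?_⟩
      have := bit_inj hbc
      simp only
      omega
    · obtain ⟨p, hp, hp2⟩ := h.cover x y hxy
      rcases hold p hp with rfl | hp'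
      · simp only at hp2
        have hb := bit_cases b
        have hc := bit_cases c
        by_cases h1 : 2 * f x + bit b = 2 * f y + bit c + 1 ∨
            2 * f y + bit c = 2 * f x + bit b + 1
        · exact ⟨_, hm1, h1⟩
        · refine ⟨_, hm2, ?_⟩
          simp only
          omega
      · exact ⟨_, hp', hp2⟩
  · rintro ⟨x, b⟩
    obtain ⟨p, hp, hp2⟩ := h.ends x
    rcases hold p hp with rfl | hp'
    · simp only at hp2
      have hb := bit_cases b
      by_cases h1 : 2 * f x + bit b = 0 ∨ 2 * f x + bit b = 2 * ((2 * a + 1 : ℕ) : ℤ) + 1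
      · exact ⟨_, hm1, h1⟩
      · refine ⟨_, hm2, ?_⟩
        simp only
        push_cast at h1 ⊢
        omega
    · exact ⟨_, hp', hp2⟩

theorem LevelSystem.insert {V : Type} {S₁ S₂ : List (ℕ × (V → ℤ))} (a : ℕ)
    (h : LevelSystem V (S₁ ++ S₂)) :
    LevelSystem (V × Bool) (S₁.map lift ++ (a, fun x => bit x.2) :: S₂.map lift) := by
  have hold : ∀ p ∈ S₁ ++ S₂, lift p ∈ S₁.map lift ++
      (a, fun x : V × Bool => bit x.2) :: S₂.map lift := by
    intro p hp
    rw [List.mem_append] at hp
    rw [List.mem_append, List.mem_cons]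
    rcases hp with hp | hp
    · left
      exact List.mem_map_of_mem hp
    · right; right
      exact List.mem_map_of_mem hp
  refine ⟨?_, ?_, ?_⟩
  · rintro p hp ⟨x, b⟩
    rw [List.mem_append, List.mem_cons] at hp
    have hb := bit_cases b
    rcases hp with hp | rfl | hp
    · obtain ⟨q, hq, rfl⟩ := List.mem_map.1 hp
      exact h.range q (by simp [hq]) x
    · simp only
      omega
    · obtain ⟨q, hq, rfl⟩ := List.mem_map.1 hp
      exact h.range q (by simp [hq]) x
  · rintro ⟨x, b⟩ ⟨y, c⟩ hne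
    by_cases hxy : x = y
    · subst hxy
      have hbc : b ≠ c := fun e => hne (by rw [e])
      exact ⟨(a, fun x => bit x.2), by simp, bit_inj hbc⟩
    · obtain ⟨p, hp, hp2⟩ := h.cover x y hxy
      exact ⟨_, hold p hp, hp2⟩
  · rintro ⟨x, b⟩
    obtain ⟨p, hp, hp2⟩ := h.ends x
    exact ⟨_, hold p hp, hp2⟩

theorem exists_levelSystem {l : List ℕ} (h : SplitTuple l) :
    ∃ V : Type, ∃ _ : Fintype V, ∃ S : List (ℕ × (V → ℤ)), Fintype.card V = 2 ^ l.length ∧
      S.map Prod.fst = l ∧ LevelSystem V S := by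
  induction h with
  | base =>
    refine ⟨Bool, inferInstance, [(0, bit)], by simp, by simp, ?_, ?_, ?_⟩
    · intro p hp x
      rw [List.mem_singleton] at hp
      subst hp
      have := bit_cases x
      simp only
      push_cast
      omega
    · intro x y hxy
      exact ⟨_, List.mem_singleton_self _, bit_inj hxy⟩
    · intro x
      refine ⟨_, List.mem_singleton_self _, ?_⟩
      have := bit_cases x
      simp only
      push_cast
      omega
  | split l₁ l₂ a _ ih =>
    obtain ⟨V, hV, S, hc, hS, hL⟩ := ih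
    obtain ⟨S₁, S', rfl, h1, h2⟩ := List.map_eq_append_iff.1 hS
    obtain ⟨p, S₂, rfl, rfl, h3⟩ := List.map_eq_cons_iff.1 h2
    obtain ⟨a, f⟩ := p
    refine ⟨V × Bool, inferInstance, _, ?_, ?_, hL.split⟩
    · rw [Fintype.card_prod, hc, Fintype.card_bool]
      simp only [List.length_append, List.length_cons]
      ring
    · simp only [List.map_append, List.map_cons, List.map_map]
      have e : (Prod.fst ∘ lift : ℕ × (V → ℤ) → ℕ) = Prod.fst := rfl
      rw [e, h1, h3]
  | insert l₁ l₂ a _ ih =>
    obtain ⟨V, hV, S, hc, hS, hL⟩ := ih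
    obtain ⟨S₁, S₂, rfl, h1, h2⟩ := List.map_eq_append_iff.1 hS
    refine ⟨V × Bool, inferInstance, _, ?_, ?_, hL.insert a⟩
    · rw [Fintype.card_prod, hc, Fintype.card_bool]
      simp only [List.length_append, List.length_cons]
      ring
    · simp only [List.map_append, List.map_cons, List.map_map]
      have e : (Prod.fst ∘ lift : ℕ × (V → ℤ) → ℕ) = Prod.fst := rfl
      rw [e, h1, h2]

theorem avoid_of_levelSystem {V : Type} [Fintype V] {t : ℕ} (a : Fin t → ℕ) (f : Fin t → V → ℤ)
    (hc : ∀ x y, x ≠ y → ∃ i, f i x = f i y + 1 ∨ f i y = f i x + 1)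
    (he : ∀ x, ∃ i, f i x = 0 ∨ f i x = 2 * a i + 1) : Avoid (Option V) a := by
  let g : (i : Fin t) → Option V → ZMod (2 * a i + 3) := fun i x =>
    x.elim (-1) (fun v => ((f i v : ℤ) : ZMod (2 * a i + 3)))
  have hnone : ∀ x : V, ∃ i, (levelGraph (g i)).Adj none (some x) := by
    intro x
    obtain ⟨i, hi⟩ := he x
    refine ⟨i, by simp, ?_⟩
    simp only [g, Option.elim]
    rcases hi with hi | hi
    · left; rw [hi]; push_cast; ring
    · right; rw [hi]
      have : ((2 * a i + 3 : ℕ) : ZMod (2 * a i + 3)) = 0 := ZMod.natCast_self _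
      push_cast at this ⊢
      linear_combination (-1 : ZMod (2 * a i + 3)) * this
  refine ⟨fun i => levelGraph (g i), ?_, ?_⟩
  · intro u v huv
    match u, v, huv with
    | none, none, h => exact absurd rfl h
    | none, some y, _ => exact hnone y
    | some x, none, _ =>
      obtain ⟨i, hi⟩ := hnone x
      exact ⟨i, hi.symm⟩
    | some x, some y, h =>
      have hxy : x ≠ y := fun e => h (by rw [e])
      obtain ⟨i, hi⟩ := hc x y hxy
      refine ⟨i, h, ?_⟩
      simp only [g, Option.elim]
      rcases hi with hi | hi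
      · right; rw [hi]; push_cast; ring
      · left; rw [hi]; push_cast; ring
  · intro i v p hp
    have h1 : 2 * a i + 3 ≤ Walk.length p := levelGraph_odd (g i) p hp
    omega

theorem avoid_of_splitTuple {l : List ℕ} (h : SplitTuple l) :
    Avoid (Fin (2 ^ l.length + 1)) (fun i : Fin l.length => l.get i) := by
  obtain ⟨V, hV, S, hc, hS, hL⟩ := exists_levelSystem h
  subst hS
  have hlen : (S.map Prod.fst).length = S.length := List.length_map ..
  have key : Avoid (Option V) (fun i : Fin (S.map Prod.fst).length => (S.map Prod.fst).get i) := by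
    have hget : ∀ i : Fin (S.map Prod.fst).length,
        (S.map Prod.fst).get i = (S.get (i.cast hlen)).1 := by
      intro i
      simp
    refine avoid_of_levelSystem _ (fun i => (S.get (i.cast hlen)).2) ?_ ?_
    · intro x y hxy
      obtain ⟨p, hp, hp2⟩ := hL.cover x y hxy
      obtain ⟨n, rfl⟩ := List.get_of_mem hp
      exact ⟨n.cast hlen.symm, hp2⟩
    · intro x
      obtain ⟨p, hp, hp2⟩ := hL.ends x
      obtain ⟨n, rfl⟩ := List.get_of_mem hp
      refine ⟨n.cast hlen.symm, ?_⟩
      rw [hget]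
      exact hp2
  obtain ⟨e⟩ : Nonempty (Fin (2 ^ (S.map Prod.fst).length + 1) ≃ Option V) := by
    rw [← Fintype.card_eq, Fintype.card_fin, Fintype.card_option, hc]
  exact key.of_injective e e.injective

theorem lt_of_avoid {N : ℕ} : ∀ {t : ℕ} (m : Fin t → ℕ), t ≠ 0 → (∀ i, 1 ≤ m i) →
    Avoid (Fin N) m → N < oddCycleRamsey m := by
  intro t m ht hm h
  cases t with
  | zero => exact absurd rfl ht
  | succ t => exact (lt_oddCycleRamsey_iff hm _).2 h

theorem splitTuple_value {l : List ℕ} (h : SplitTuple l) (m : Fin l.length → ℕ)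
    (hm : ∀ i, 1 ≤ m i) (hle : ∀ i, m i ≤ l.get i) : 2 ^ l.length + 1 < oddCycleRamsey m := by
  refine lt_of_avoid m ?_ hm ((avoid_of_splitTuple h).mono hle)
  intro h0
  have : l = [] := List.length_eq_zero_iff.1 h0
  subst this
  generalize hl : ([] : List ℕ) = l at h
  cases h <;> simp at hl

end Pool.Agent.Work.MP_92a29d_co
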