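import Pool.Agent.Work.MP_92a29d_co.Count

/-!
Three graphs without triangles and pentagons do not cover the complete graph on nine vertices.
-/

namespace Pool.Agent.Work.MP_92a29d_co

open SimpleGraph Finset

section dfs

/-- `true` if some mask of the list is contained in `T` or in `F`. -/
def badMask (L : List ℕ) (T : ℕ) : Bool := L.any fun c => Nat.beq (Nat.land c T) c

/-- exhaustive search: `true` if every assignment of the listed variables extending the
current one (true set `T`, false set `F`) violates a constraint -/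
def dfs : List (ℕ × List ℕ) → ℕ → ℕ → Bool
  | [], _, _ => false
  | L :: Ls, T, F =>
    (badMask L.2 (Nat.lor T (Nat.pow 2 L.1)) || dfs Ls (Nat.lor T (Nat.pow 2 L.1)) F) &&
    (badMask L.2 (Nat.lor F (Nat.pow 2 L.1)) || dfs Ls T (Nat.lor F (Nat.pow 2 L.1)))

theorem badMask_sound {L : List ℕ} {T : ℕ} (h : badMask L T = true) :
    ∃ c ∈ L, ∀ j, c.testBit j = true → T.testBit j = true := by
  unfold badMask at h
  rw [List.any_eq_true] at h
  obtain ⟨c, hc, h2⟩ := h
  refine ⟨c, hc, fun j hj => ?_⟩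
  have h3 : Nat.land c T = c := Nat.eq_of_beq_eq_true h2
  change c &&& T = c at h3
  rw [← h3, Nat.testBit_and, Bool.and_eq_true] at hj
  exact hj.2

theorem dfs_sound (a : ℕ → Bool) : ∀ (Ls : List (ℕ × List ℕ)) (T F : ℕ),
    dfs Ls T F = true →
    (∀ L ∈ Ls, ∀ c ∈ L.2, (∃ j, c.testBit j = true ∧ a j = false) ∧
      (∃ j, c.testBit j = true ∧ a j = true)) →
    (∀ j, T.testBit j = true → a j = true) → (∀ j, F.testBit j = true → a j = false) → False := by
  intro Ls
  induction Ls with
  | nil => intro T F h; simp [dfs] at h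
  | cons L Ls ih =>
    intro T F h hc hT hF
    rw [dfs, Bool.and_eq_true] at h
    obtain ⟨h1, h2⟩ := h
    have hbit : ∀ (X j : ℕ), (Nat.lor X (Nat.pow 2 L.1)).testBit j = true →
        X.testBit j = true ∨ j = L.1 := by
      intro X j hj
      change (X ||| 2 ^ L.1).testBit j = true at hj
      rw [Nat.testBit_or, Nat.testBit_two_pow, Bool.or_eq_true, decide_eq_true_eq] at hj
      rcases hj with hj | hj
      · exact Or.inl hj
      · exact Or.inr hj.symm
    cases ha : a L.1 with
    | true =>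
      have hT' : ∀ j, (Nat.lor T (Nat.pow 2 L.1)).testBit j = true → a j = true := by
        intro j hj
        rcases hbit T j hj with h | rfl
        · exact hT j h
        · exact ha
      rw [Bool.or_eq_true] at h1
      rcases h1 with h1 | h1
      · obtain ⟨c, hcL, hsub⟩ := badMask_sound h1
        obtain ⟨j, hj1, hj2⟩ := (hc L List.mem_cons_self c hcL).1
        rw [hT' j (hsub j hj1)] at hj2
        exact absurd hj2 (by decide)
      · exact ih _ _ h1 (fun L' hL' => hc L' (List.mem_cons_of_mem _ hL')) hT' hF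
    | false =>
      have hF' : ∀ j, (Nat.lor F (Nat.pow 2 L.1)).testBit j = true → a j = false := by
        intro j hj
        rcases hbit F j hj with h | rfl
        · exact hF j h
        · exact ha
      rw [Bool.or_eq_true] at h2
      rcases h2 with h2 | h2
      · obtain ⟨c, hcL, hsub⟩ := badMask_sound h2
        obtain ⟨j, hj1, hj2⟩ := (hc L List.mem_cons_self c hcL).2
        rw [hF' j (hsub j hj1)] at hj2
        exact absurd hj2 (by decide)
      · exact ih _ _ h2 (fun L' hL' => hc L' (List.mem_cons_of_mem _ hL')) hT hF'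

def cycData : List (ℕ × List (List ℕ)) := [
  (23, []),
  (25, []),
  (52, [[2, 5, 7]]),
  (2, []),
  (7, [[0, 2, 7]]),
  (5, [[0, 2, 5], [0, 5, 7]]),
  (32, []),
  (34, [[3, 5, 7], [0, 2, 5, 3, 7], [0, 2, 7, 3, 5]]),
  (3, [[0, 3, 5], [0, 3, 7], [0, 2, 5, 7, 3], [0, 2, 7, 5, 3], [0, 3, 5, 2, 7], [0, 3, 7, 2, 5]]),
  (4, []),
  (22, [[0, 2, 4], [0, 3, 5, 2, 4], [0, 3, 7, 2, 4], [0, 4, 2, 5, 7], [0, 4, 2, 7, 5]]),
  (43, [[0, 4, 7], [2, 4, 7], [0, 2, 4, 7, 3], [0, 2, 4, 7, 5], [0, 2, 5, 7, 4], [0, 4, 7, 2, 5], [0, 5, 2, 4, 7], [0, 3, 5, 7, 4], [0, 4, 7, 3, 5], [2, 4, 7, 3, 5]]),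
  (12, []),
  (13, [[0, 2, 4, 1, 3], [0, 4, 1, 3, 5], [0, 3, 1, 4, 7], [0, 4, 1, 3, 7], [1, 3, 5, 2, 4], [1, 3, 7, 2, 4], [1, 3, 5, 7, 4]]),
  (42, []),
  (33, [[0, 2, 4, 6, 3], [0, 4, 6, 3, 5], [0, 3, 6, 4, 7], [0, 4, 6, 3, 7], [2, 4, 6, 3, 5], [2, 4, 6, 3, 7], [3, 5, 7, 4, 6]]),
  (15, [[1, 3, 6], [1, 4, 6], [0, 3, 1, 6, 4], [0, 3, 6, 1, 4], [1, 3, 7, 4, 6], [1, 4, 7, 3, 6]]),
  (62, []),
  (53, [[0, 3, 6, 8, 5], [0, 4, 6, 8, 5], [1, 3, 5, 8, 6], [2, 4, 6, 8, 5], [3, 6, 8, 5, 7], [4, 6, 8, 5, 7]]),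
  (35, [[3, 5, 8], [3, 6, 8], [0, 2, 5, 8, 3], [0, 3, 8, 6, 4], [0, 3, 8, 5, 7], [0, 5, 8, 3, 7], [1, 3, 8, 6, 4], [2, 5, 8, 3, 7], [3, 7, 4, 6, 8]]),
  (17, [[1, 3, 8], [1, 6, 8], [0, 3, 8, 1, 4], [0, 3, 1, 8, 5], [0, 4, 1, 8, 5], [1, 4, 2, 5, 8], [1, 4, 6, 3, 8], [1, 4, 7, 3, 8], [1, 6, 3, 5, 8], [1, 3, 7, 5, 8], [1, 4, 7, 5, 8]]),
  (44, [[1, 4, 8], [4, 6, 8], [0, 3, 1, 8, 4], [0, 2, 4, 8, 3], [0, 2, 4, 8, 5], [0, 2, 5, 8, 4], [0, 3, 5, 8, 4], [0, 4, 8, 3, 5], [0, 3, 6, 8, 4], [0, 3, 8, 4, 7], [0, 4, 8, 3, 7], [0, 4, 8, 5, 7], [0, 5, 8, 4, 7], [1, 3, 5, 8, 4], [1, 3, 6, 4, 8], [1, 3, 6, 8, 4], [1, 3, 8, 4, 6], [1, 4, 8, 3, 6], [1, 3, 7, 4, 8], [2, 4, 8, 3, 5], [2, 4, 8, 3, 7], [2, 4, 8, 5, 7], [2, 5, 8, 4, 7], [3, 5, 8, 4, 6], [3, 5, 7, 4, 8], [3, 5, 8, 4, 7], [3, 6, 8, 4, 7]]),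
  (14, [[1, 3, 5], [1, 5, 8], [0, 2, 5, 1, 3], [0, 2, 4, 1, 5], [0, 2, 5, 1, 4], [0, 3, 5, 1, 4], [0, 3, 6, 1, 5], [0, 3, 1, 5, 7], [0, 5, 1, 3, 7], [0, 3, 8, 1, 5], [0, 4, 6, 1, 5], [0, 4, 1, 5, 7], [0, 5, 1, 4, 7], [0, 4, 8, 1, 5], [1, 3, 7, 2, 5], [1, 5, 2, 4, 6], [1, 4, 2, 7, 5], [1, 4, 7, 2, 5], [1, 5, 2, 4, 8], [1, 4, 6, 3, 5], [1, 4, 7, 3, 5], [1, 4, 8, 3, 5], [1, 5, 7, 3, 6], [1, 3, 6, 8, 5], [1, 5, 3, 6, 8], [1, 5, 3, 8, 6], [1, 5, 8, 3, 6], [1, 5, 7, 3, 8], [1, 5, 7, 4, 6], [1, 4, 6, 8, 5], [1, 5, 8, 4, 6], [1, 5, 7, 4, 8]]),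
  (24, [[2, 4, 6], [0, 2, 6, 1, 3], [0, 2, 6, 1, 4], [0, 2, 6, 1, 5], [0, 3, 6, 2, 4], [0, 2, 6, 3, 5], [0, 3, 6, 2, 5], [0, 2, 6, 3, 7], [0, 3, 6, 2, 7], [0, 2, 6, 8, 3], [0, 4, 6, 2, 5], [0, 2, 6, 4, 7], [0, 4, 6, 2, 7], [0, 2, 6, 8, 4], [0, 2, 6, 8, 5], [1, 3, 6, 2, 4], [1, 3, 5, 2, 6], [1, 3, 6, 2, 5], [1, 3, 7, 2, 6], [1, 4, 6, 2, 5], [1, 4, 7, 2, 6], [1, 4, 2, 6, 8], [1, 6, 2, 4, 8], [1, 5, 7, 2, 6], [1, 5, 2, 6, 8], [1, 6, 2, 5, 8], [2, 4, 7, 3, 6], [2, 4, 8, 3, 6], [2, 5, 7, 3, 6], [2, 6, 3, 5, 7], [2, 5, 3, 8, 6], [2, 5, 8, 3, 6], [2, 6, 8, 3, 7], [2, 5, 7, 4, 6], [2, 5, 8, 4, 6], [2, 6, 8, 4, 7], [2, 6, 8, 5, 7]])]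

def maskData : List (ℕ × List ℕ) := [
  (23, []),
  (25, []),
  (52, [4503599669313536]),
  (2, []),
  (7, [33554564]),
  (5, [8388644, 4503599627370656]),
  (32, []),
  (34, [4503621102206976, 21483225220, 21508390948]),
  (3, [4294967336, 17179869320, 4503616815628300, 4503603955892236, 4336910472, 17221812264]),
  (4, []),
  (22, [4194324, 4307550232, 17217617944, 4503599639953552, 4503599665119280]),
  (43, [8796093022352, 8796130770944, 8813277085708, 4512395724587044, 4512395728781332, 8796134965296, 8796105605280, 4512400015360024, 8817567858736, 8817580441600]),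
  (12, []),
  (13, [4206604, 4294979632, 8796093034632, 17179881616, 4307562496, 17217630208, 4512400015372288]),
  (42, []),
  (33, [4406640640012, 4410931413040, 13202729468040, 4423816315024, 4410943995904, 4423854063616, 4516806651805696]),
  (15, [8589971456, 4398046552064, 4398046547992, 8589975576, 13211319439360, 8821862866944]),
  (62, []),
  (53, [4620693226272063528, 4620697615728640048, 4620693221977133056, 4620697615741222912, 4625196843079303168, 4625210011449032704]),
  (35, [9007237909446656, 4611686061377060864, 9007233622867980, 4611690450833637400, 13510833241849992, 9007250794348704, 4611690450833649664, 9007250836291584, 4611699264106528768]),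
  (17, [34359873536, 4611686018427551744, 34359877656, 9007199254876200, 9007199254880304, 9007199267463168, 4440996323328, 8847632769024, 9007212139806720, 13510816062115840, 13519594975272960]),
  (44, [17592186183680, 4611708008659943424, 17592186179608, 17626549977100, 9024791444979748, 9024791449174036, 9024795735752728, 17630840750128, 4611703619203366936, 26422638805128, 17643725652112, 13528391068156048, 9033587533807776, 9024795735764992, 21998822625280, 4611703619203379200, 22024592330752, 17635135758336, 26405459070976, 17630853332992, 17643763400704, 13528391105904640, 9033587575750656, 9029202372198400, 4530026561142784, 9033609008644096, 4611712432476258304]),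
  (14, [4294987776, 9007199254888448, 8409100, 4218916, 8413204, 4294991896, 8589983784, 4503599627391112, 17179889824, 34359885864, 4398046560304, 4503599627395216, 8796093046944, 17592186191920, 17221832704, 4398059143168, 4503599665143808, 8796134989824, 17592198774784, 4410931437568, 8817567883264, 17630840774656, 4503625397223424, 4620693226272083968, 4611686031312437248, 4611686057082142720, 9007242204463104, 4503651167125504, 4516793766952960, 4620697615728664576, 9029189487345664, 4529987906584576]),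
  (24, [4398067482624, 16814092, 16818196, 16826404, 8610906136, 12901679140, 8615100456, 25786581124, 8640266376, 4611686052803903500, 4398071676976, 13194156310660, 4398096842896, 4611703610630209556, 4620693217698906148, 8610918400, 4320169984, 8615120896, 17230237696, 4398071701504, 8796143394816, 4611686018448498688, 17592207179776, 4503599677751296, 4611686018452701184, 9007199280070656, 8821883797504, 17635156688896, 4503625422340096, 4503612562604032, 4611686057107259392, 9007242229579776, 4611686070017327104, 4516793792069632, 9029189512462336, 4611712406756786176, 4625196817359831040])]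

/-- index of an unordered pair -/
def pidx (u v : ℕ) : ℕ := if u < v then 9 * u + v else 9 * v + u

/-- consecutive pairs of the closed walk through the vertices of the list, closed at `z` -/
def pairsFrom (z : ℕ) : List ℕ → List (ℕ × ℕ)
  | [] => []
  | [x] => [(x, z)]
  | x :: y :: l => (x, y) :: pairsFrom z (y :: l)

def toMask (w : List ℕ) : ℕ :=
  (pairsFrom w.headI w).foldr (fun p acc => Nat.lor (2 ^ pidx p.1 p.2) acc) 0

/-- the twelve edges of the colour class that is fixed -/
def hEdges : List (ℕ × ℕ) := [(0, 1), (1, 2), (2, 3), (3, 4), (4, 5), (5, 6), (0, 6), (6, 7), (1, 7),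
  (0, 8), (2, 8), (7, 8)]

def okPair (p : ℕ × ℕ) : Bool :=
  p.1 != p.2 && decide (p.1 < 9) && decide (p.2 < 9) && !(hEdges.contains p) &&
    !(hEdges.contains (p.2, p.1))

def okCycle (w : List ℕ) : Bool :=
  (w.length == 3 || w.length == 5) && (pairsFrom w.headI w).all okPair

theorem maskData_eq : cycData.map (fun p => (p.1, p.2.map toMask)) = maskData := by decide +kernel

theorem cycData_ok : (cycData.all fun p => p.2.all okCycle) = true := by decide +kernel

theorem dfs_maskData : dfs maskData 0 0 = true := by decide +kernel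

variable {V : Type*}

theorem walk_of_pairs (G : SimpleGraph V) (e : ℕ → V) (z : ℕ) : ∀ (x : ℕ) (l : List ℕ),
    (∀ p ∈ pairsFrom z (x :: l), G.Adj (e p.1) (e p.2)) →
    ∃ q : G.Walk (e x) (e z), q.length = l.length + 1 := by
  intro x l
  induction l generalizing x with
  | nil =>
    intro h
    have := h (x, z) (by simp [pairsFrom])
    exact ⟨Walk.cons this Walk.nil, by simp⟩
  | cons y l ih =>
    intro h
    have h1 := h (x, y) (by simp [pairsFrom])
    obtain ⟨q, hq⟩ := ih y (fun p hp => h p (by rw [pairsFrom]; exact List.mem_cons_of_mem _ hp))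
    exact ⟨Walk.cons h1 q, by rw [Walk.length_cons, hq, List.length_cons]⟩

theorem mem_toMask {L : List (ℕ × ℕ)} {p : ℕ × ℕ} (hp : p ∈ L) :
    (L.foldr (fun p acc => Nat.lor (2 ^ pidx p.1 p.2) acc) 0).testBit (pidx p.1 p.2) = true := by
  induction L with
  | nil => simp at hp
  | cons q L ih =>
    rw [List.foldr_cons]
    change (2 ^ pidx q.1 q.2 ||| _).testBit _ = true
    rw [Nat.testBit_or, Bool.or_eq_true]
    rcases List.mem_cons.1 hp with rfl | hp
    · left; rw [Nat.testBit_two_pow]; simp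
    · right; exact ih hp

/-- Final contradiction: the complement of the fixed graph is not a union of two graphs without
triangles and pentagons. -/
theorem no_two (G1 G2 : SimpleGraph V) (e : ℕ → V)
    (hcov : ∀ u v, okPair (u, v) = true → G1.Adj (e u) (e v) ∨ G2.Adj (e u) (e v))
    (h1 : ∀ v (p : G1.Walk v v), Odd p.length → 5 < p.length)
    (h2 : ∀ v (p : G2.Walk v v), Odd p.length → 5 < p.length) : False := by
  classical
  let a : ℕ → Bool := fun n => decide (G1.Adj (e (n / 9)) (e (n % 9)))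
  have ha : ∀ u v, u < 9 → v < 9 → (a (pidx u v) = true ↔ G1.Adj (e u) (e v)) := by
    intro u v hu hv
    simp only [a, decide_eq_true_eq]
    unfold pidx
    split_ifs with huv
    · have e1 : (9 * u + v) / 9 = u := by omega
      have e2 : (9 * u + v) % 9 = v := by omega
      rw [e1, e2]
    · have e1 : (9 * v + u) / 9 = v := by omega
      have e2 : (9 * v + u) % 9 = u := by omega
      rw [e1, e2, G1.adj_comm]
  have hwalk : ∀ (G : SimpleGraph V), (∀ v (p : G.Walk v v), Odd p.length → 5 < p.length) →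
      ∀ w, okCycle w = true → ∃ p ∈ pairsFrom w.headI w, ¬ G.Adj (e p.1) (e p.2) := by
    intro G hG w hw
    by_contra hcon
    push Not at hcon
    unfold okCycle at hw
    rw [Bool.and_eq_true, Bool.or_eq_true] at hw
    cases w with
    | nil => simp at hw
    | cons x l =>
      obtain ⟨q, hq⟩ := walk_of_pairs G e x x l hcon
      have hl : q.length = 3 ∨ q.length = 5 := by
        rcases hw.1 with h | h
        · left; rw [hq]; simpa using h
        · right; rw [hq]; simpa using h
      have := hG _ q (by rcases hl with h | h <;> rw [h] <;> decide)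
      omega
  apply dfs_sound a maskData 0 0 dfs_maskData
  · intro L hL c hc
    rw [← maskData_eq] at hL
    obtain ⟨q, hq, rfl⟩ := List.mem_map.1 hL
    obtain ⟨w, hw, rfl⟩ := List.mem_map.1 hc
    have hok : okCycle w = true := by
      have := cycData_ok
      rw [List.all_eq_true] at this
      have := this q hq
      rw [List.all_eq_true] at this
      exact this w hw
    have hpairs : ∀ p ∈ pairsFrom w.headI w, okPair p = true := by
      have := hok
      unfold okCycle at this
      rw [Bool.and_eq_true, List.all_eq_true] at this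
      exact this.2
    have hlt : ∀ p ∈ pairsFrom w.headI w, p.1 < 9 ∧ p.2 < 9 := by
      intro p hp
      have := hpairs p hp
      unfold okPair at this
      simp only [Bool.and_eq_true, decide_eq_true_eq] at this
      exact ⟨this.1.1.1.2, this.1.1.2⟩
    constructor
    · obtain ⟨p, hp, hadj⟩ := hwalk G1 h1 w hok
      refine ⟨pidx p.1 p.2, mem_toMask hp, ?_⟩
      rw [← Bool.not_eq_true, ha _ _ (hlt p hp).1 (hlt p hp).2]
      exact hadj
    · obtain ⟨p, hp, hadj⟩ := hwalk G2 h2 w hok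
      refine ⟨pidx p.1 p.2, mem_toMask hp, ?_⟩
      rw [ha _ _ (hlt p hp).1 (hlt p hp).2]
      rcases hcov p.1 p.2 (hpairs p hp) with h | h
      · exact h
      · exact absurd h hadj
  · intro j hj; simp at hj
  · intro j hj; simp at hj

end dfs

end Pool.Agent.Work.MP_92a29d_co
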